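import Mathlib

/-!
# AP => polynomial, part 1: approximately additive functions on an initial segment

If `f (x + y) - f x - f y` is at most `d` for all `x + y <= M`, then `f x` is within `3 d` of
`(x / M) f M` for all `x <= M`.
-/

set_option autoImplicit false

namespace Pool.APP

variable {E : Type*} [NormedAddCommGroup E] [NormedSpace ℝ E]

/-- Hyers on `{0, .., M}` -/
theorem hyers (f : ℕ → E) (M : ℕ) (hM : 1 ≤ M) (d : ℝ)
    (hf : ∀ x y : ℕ, x + y ≤ M → ‖f (x + y) - f x - f y‖ ≤ d) (x : ℕ) (hx : x ≤ M) :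
    ‖f x - ((x : ℝ) / (M : ℝ)) • f M‖ ≤ 3 * d := by
  classical
  have hM0 : (0 : ℝ) < (M : ℝ) := by exact_mod_cast hM
  set g : ℕ → E := fun x => f x - ((x : ℝ) / (M : ℝ)) • f M with hg
  have hgadd : ∀ x y : ℕ, x + y ≤ M → ‖g (x + y) - g x - g y‖ ≤ d := by
    intro x y hxy
    have h1 : g (x + y) - g x - g y = f (x + y) - f x - f y := by
      simp only [hg]
      have : (((x + y : ℕ) : ℝ) / (M : ℝ)) = (x : ℝ) / (M : ℝ) + (y : ℝ) / (M : ℝ) := by
        push_cast; ring
      rw [this, add_smul]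
      abel
    rw [h1]
    exact hf x y hxy
  have hgM : g M = 0 := by
    simp only [hg]
    rw [div_self hM0.ne', one_smul, sub_self]
  obtain ⟨z, hz, hmax⟩ := Finset.exists_max_image (Finset.range (M + 1)) (fun x => ‖g x‖)
    ⟨0, Finset.mem_range.2 (Nat.succ_pos M)⟩
  have hz' : z ≤ M := Nat.lt_succ_iff.1 (Finset.mem_range.1 hz)
  have hmax' : ∀ y : ℕ, y ≤ M → ‖g y‖ ≤ ‖g z‖ := fun y hy =>
    hmax y (Finset.mem_range.2 (Nat.lt_succ_of_le hy))
  have hd : 0 ≤ d := le_trans (norm_nonneg _) (hf 0 0 (by omega))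
  have key : ∀ y : ℕ, 2 * y ≤ M → 2 * ‖g y‖ ≤ ‖g z‖ + d := by
    intro y hy
    have h1 := hgadd y y (by omega)
    have h2 : ‖g (y + y)‖ ≤ ‖g z‖ := hmax' _ (by omega)
    have h3 : (2 : ℝ) • g y = g (y + y) - (g (y + y) - g y - g y) := by
      rw [two_smul]; abel
    have h4 : 2 * ‖g y‖ = ‖(2 : ℝ) • g y‖ := by
      rw [norm_smul]; norm_num
    rw [h4, h3]
    refine le_trans (norm_sub_le _ _) ?_
    linarith
  have hS : ‖g z‖ ≤ 3 * d := by
    rcases le_or_gt (2 * z) M with h | h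
    · have := key z h
      linarith
    · have h1 := hgadd z (M - z) (by omega)
      have h2 : z + (M - z) = M := by omega
      rw [h2, hgM] at h1
      have h3 : ‖g z‖ ≤ ‖g (M - z)‖ + d := by
        have h4 : g z = -(0 - g z - g (M - z)) - g (M - z) := by abel
        calc ‖g z‖ = ‖-(0 - g z - g (M - z)) - g (M - z)‖ := by rw [← h4]
          _ ≤ ‖-(0 - g z - g (M - z))‖ + ‖g (M - z)‖ := norm_sub_le _ _
          _ ≤ ‖g (M - z)‖ + d := by rw [norm_neg]; linarith
      have h5 := key (M - z) (by omega)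
      linarith
  exact le_trans (hmax' x hx) hS

end Pool.APP
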