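import Mathlib

/-!
# AP => polynomial, part 2: multi-differences and the Djokovic identity

`AP m g t h = sum_(j <= m) (-1)^j C(m,j) g (t + j h)` and, for a finite set `I` of indices and steps
`h i`, `MD I g h t = sum_(S subset I) (-1)^|S| g (t + sum_(i in S) h i)`.  The multi-difference with
steps `i k_i`, `i = 1..m`, is a signed sum of `2 ^ m` AP differences.
-/

set_option autoImplicit false

namespace Pool.APP

open Finset

variable {E : Type*} [NormedAddCommGroup E] [NormedSpace ℝ E]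

/-- the AP difference of order `m` -/
noncomputable def AP (m : ℕ) (g : ℤ → E) (t h : ℤ) : E :=
  ∑ j ∈ range (m + 1), ((-1 : ℝ) ^ j * (m.choose j : ℝ)) • g (t + (j : ℤ) * h)

/-- the multi-difference with steps `h i`, `i ∈ I` -/
noncomputable def MD (I : Finset ℕ) (g : ℤ → E) (h : ℕ → ℤ) (t : ℤ) : E :=
  ∑ S ∈ I.powerset, ((-1 : ℝ) ^ S.card) • g (t + ∑ i ∈ S, h i)

theorem MD_empty (g : ℤ → E) (h : ℕ → ℤ) (t : ℤ) : MD ∅ g h t = g t := by
  simp [MD]

theorem MD_insert {I : Finset ℕ} {i : ℕ} (hi : i ∉ I) (g : ℤ → E) (h : ℕ → ℤ) (t : ℤ) :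
    MD (insert i I) g h t = MD I g h t - MD I g h (t + h i) := by
  classical
  unfold MD
  rw [Finset.sum_powerset_insert hi, sub_eq_add_neg, ← Finset.sum_neg_distrib]
  congr 1
  refine Finset.sum_congr rfl fun S hS => ?_
  have hiS : i ∉ S := fun h' => hi (Finset.mem_powerset.1 hS h')
  rw [Finset.card_insert_of_notMem hiS, Finset.sum_insert hiS, pow_succ, mul_neg_one, neg_smul,
    add_assoc]

theorem MD_congr {I : Finset ℕ} {g : ℤ → E} {h h' : ℕ → ℤ} (H : ∀ i ∈ I, h i = h' i) (t : ℤ) :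
    MD I g h t = MD I g h' t := by
  unfold MD
  refine Finset.sum_congr rfl fun S hS => ?_
  rw [Finset.sum_congr rfl fun i hi => H i (Finset.mem_powerset.1 hS hi)]

theorem MD_zero_step {I : Finset ℕ} {i : ℕ} (hi : i ∈ I) (g : ℤ → E) (h : ℕ → ℤ) (h0 : h i = 0)
    (t : ℤ) : MD I g h t = 0 := by
  classical
  have h1 : I = insert i (I.erase i) := (Finset.insert_erase hi).symm
  rw [h1, MD_insert (Finset.notMem_erase i I), h0, add_zero, sub_self]

theorem MD_sub (I : Finset ℕ) (f g : ℤ → E) (h : ℕ → ℤ) (t : ℤ) :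
    MD I (fun x => f x - g x) h t = MD I f h t - MD I g h t := by
  unfold MD
  rw [← Finset.sum_sub_distrib]
  exact Finset.sum_congr rfl fun S _ => smul_sub _ _ _

theorem AP_sub (m : ℕ) (f g : ℤ → E) (t h : ℤ) :
    AP m (fun x => f x - g x) t h = AP m f t h - AP m g t h := by
  unfold AP
  rw [← Finset.sum_sub_distrib]
  exact Finset.sum_congr rfl fun S _ => smul_sub _ _ _

/-- additivity in one step -/
theorem MD_add_step {I : Finset ℕ} {i : ℕ} (hi : i ∈ I) (g : ℤ → E) (h : ℕ → ℤ) (x y t : ℤ) :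
    MD I g (Function.update h i (x + y)) t =
      MD I g (Function.update h i x) t + MD I g (Function.update h i y) (t + x) := by
  classical
  have h1 : I = insert i (I.erase i) := (Finset.insert_erase hi).symm
  have hn : i ∉ I.erase i := Finset.notMem_erase i I
  have hc : ∀ (z u : ℤ), MD (I.erase i) g (Function.update h i z) u = MD (I.erase i) g h u := by
    intro z u
    refine MD_congr (fun j hj => ?_) u
    exact Function.update_of_ne (Finset.ne_of_mem_erase hj) _ _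
  have key : ∀ z u : ℤ, MD I g (Function.update h i z) u =
      MD (I.erase i) g h u - MD (I.erase i) g h (u + z) := by
    intro z u
    conv_lhs => rw [h1]
    rw [MD_insert hn, hc, hc, Function.update_self]
  rw [key, key, key, add_assoc]
  abel

/-- constancy in the base point -/
theorem MD_shift {I : Finset ℕ} {i : ℕ} (hi : i ∉ I) (g : ℤ → E) (h : ℕ → ℤ) (x t : ℤ) :
    MD I g h t - MD I g h (t + x) = MD (insert i I) g (Function.update h i x) t := by
  classical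
  rw [MD_insert hi, Function.update_self]
  have hc : ∀ (u : ℤ), MD I g (Function.update h i x) u = MD I g h u := by
    intro u
    refine MD_congr (fun j hj => ?_) u
    exact Function.update_of_ne (fun h' : j = i => hi (by rw [← h']; exact hj)) _ _
  rw [hc, hc]

/-- AP differences as multi-differences with equal steps -/
theorem MD_const (I : Finset ℕ) (g : ℤ → E) (h : ℕ → ℤ) (c : ℤ) (hc : ∀ i ∈ I, h i = c) (t : ℤ) :
    MD I g h t = AP I.card g t c := by
  classical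
  unfold MD AP
  have h1 : ∀ S ∈ I.powerset, ((-1 : ℝ) ^ S.card) • g (t + ∑ i ∈ S, h i) =
      (fun j : ℕ => ((-1 : ℝ) ^ j) • g (t + (j : ℤ) * c)) S.card := by
    intro S hS
    have : ∑ i ∈ S, h i = (S.card : ℤ) * c := by
      rw [Finset.sum_congr rfl fun i hi => hc i (Finset.mem_powerset.1 hS hi), Finset.sum_const,
        nsmul_eq_mul]
    simp only [this]
  rw [Finset.sum_congr rfl h1]
  rw [Finset.sum_powerset_apply_card (fun j : ℕ => ((-1 : ℝ) ^ j) • g (t + (j : ℤ) * c))]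
  refine Finset.sum_congr rfl fun j _ => ?_
  rw [← Nat.cast_smul_eq_nsmul ℝ, smul_smul, mul_comm]

theorem AP_zero_step (m : ℕ) (hm : 1 ≤ m) (g : ℤ → E) (t : ℤ) : AP m g t 0 = 0 := by
  have h := MD_const (Finset.range m) g (fun _ : ℕ => (0 : ℤ)) 0 (fun _ _ => rfl) t
  rw [Finset.card_range] at h
  rw [← h]
  exact MD_zero_step (I := Finset.range m) (i := 0) (Finset.mem_range.2 hm) g
    (fun _ : ℕ => (0 : ℤ)) rfl t

/-- reversal -/
theorem AP_neg (m : ℕ) (g : ℤ → E) (t h : ℤ) :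
    AP m g t (-h) = ((-1 : ℝ) ^ m) • AP m g (t - (m : ℤ) * h) h := by
  unfold AP
  rw [Finset.smul_sum]
  rw [← Finset.sum_range_reflect]
  refine Finset.sum_congr rfl fun j hj => ?_
  have hj' : j ≤ m := Nat.lt_succ_iff.1 (Finset.mem_range.1 hj)
  have h1 : m + 1 - 1 - j = m - j := by omega
  rw [h1, smul_smul, Nat.choose_symm hj']
  have h2 : (t + ((m - j : ℕ) : ℤ) * -h) = t - (m : ℤ) * h + (j : ℤ) * h := by
    rw [Nat.cast_sub hj']; ring
  rw [h2]
  congr 1
  have h3 : ((-1 : ℝ)) ^ (m - j) = (-1) ^ m * (-1) ^ j := by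
    have h4 : ((-1 : ℝ)) ^ m = (-1) ^ (m - j) * (-1) ^ j := by
      rw [← pow_add, Nat.sub_add_cancel hj']
    rw [h4, mul_assoc, ← mul_pow]
    norm_num
  rw [h3]
  ring

/-- the Djokovic identity -/
theorem djok (m : ℕ) (g : ℤ → E) (k : ℕ → ℤ) (t : ℤ) :
    MD (Finset.Icc 1 m) g (fun i => (i : ℤ) * k i) t =
      ∑ S ∈ (Finset.Icc 1 m).powerset, ((-1 : ℝ) ^ S.card) •
        AP m g (t + ∑ i ∈ S, (i : ℤ) * k i) (-(∑ i ∈ S, k i)) := by
  classical
  have h1 : ∀ S ∈ (Finset.Icc 1 m).powerset, ((-1 : ℝ) ^ S.card) •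
        AP m g (t + ∑ i ∈ S, (i : ℤ) * k i) (-(∑ i ∈ S, k i)) =
      ∑ j ∈ range (m + 1), ((-1 : ℝ) ^ j * (m.choose j : ℝ)) • (((-1 : ℝ) ^ S.card) •
        g (t + ∑ i ∈ S, ((i : ℤ) - (j : ℤ)) * k i)) := by
    intro S _
    unfold AP
    rw [Finset.smul_sum]
    refine Finset.sum_congr rfl fun j _ => ?_
    rw [smul_comm]
    congr 3
    rw [add_assoc]
    congr 1
    rw [mul_neg, Finset.mul_sum, ← sub_eq_add_neg, ← Finset.sum_sub_distrib]
    refine Finset.sum_congr rfl fun i _ => ?_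
    ring
  rw [Finset.sum_congr rfl h1, Finset.sum_comm]
  have h2 : ∀ j ∈ range (m + 1), ∑ S ∈ (Finset.Icc 1 m).powerset,
      ((-1 : ℝ) ^ j * (m.choose j : ℝ)) • (((-1 : ℝ) ^ S.card) •
        g (t + ∑ i ∈ S, ((i : ℤ) - (j : ℤ)) * k i)) =
      ((-1 : ℝ) ^ j * (m.choose j : ℝ)) •
        MD (Finset.Icc 1 m) g (fun i => ((i : ℤ) - (j : ℤ)) * k i) t := by
    intro j _
    unfold MD
    rw [Finset.smul_sum]
  rw [Finset.sum_congr rfl h2, Finset.sum_range_succ']
  have h3 : ∀ j ∈ range m, ((-1 : ℝ) ^ (j + 1) * (m.choose (j + 1) : ℝ)) •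
        MD (Finset.Icc 1 m) g (fun i => ((i : ℤ) - ((j + 1 : ℕ) : ℤ)) * k i) t = 0 := by
    intro j hj
    have hj' : j < m := Finset.mem_range.1 hj
    have h4 : MD (Finset.Icc 1 m) g (fun i => ((i : ℤ) - ((j + 1 : ℕ) : ℤ)) * k i) t = 0 := by
      refine MD_zero_step (i := j + 1) (Finset.mem_Icc.2 ⟨by omega, by omega⟩) g _ ?_ t
      simp
    rw [h4, smul_zero]
  rw [Finset.sum_eq_zero h3, zero_add]
  simp only [pow_zero, Nat.choose_zero_right, Nat.cast_one, mul_one, one_smul, Nat.cast_zero, sub_zero]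

/-- bound of the multi-difference -/
theorem djok_norm (m : ℕ) (hm : 1 ≤ m) (g : ℤ → E) (k : ℕ → ℕ) (t a b : ℤ) (d : ℝ) (hd : 0 ≤ d)
    (hg : ∀ u h : ℤ, 1 ≤ h → a ≤ u → u + (m : ℤ) * h ≤ b → ‖AP m g u h‖ ≤ d)
    (ha : a + (m : ℤ) * ∑ i ∈ Finset.Icc 1 m, (k i : ℤ) ≤ t)
    (hb : t + (m : ℤ) * ∑ i ∈ Finset.Icc 1 m, (k i : ℤ) ≤ b) :
    ‖MD (Finset.Icc 1 m) g (fun i => (i : ℤ) * (k i : ℤ)) t‖ ≤ 2 ^ m * d := by
  classical
  have h0 := djok m g (fun i => (k i : ℤ)) t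
  rw [h0]
  refine le_trans (norm_sum_le _ _) ?_
  have hterm : ∀ S ∈ (Finset.Icc 1 m).powerset, ‖((-1 : ℝ) ^ S.card) •
        AP m g (t + ∑ i ∈ S, (i : ℤ) * (k i : ℤ)) (-(∑ i ∈ S, (k i : ℤ)))‖ ≤ d := by
    intro S hS
    have hS' := Finset.mem_powerset.1 hS
    rw [norm_smul, norm_pow, norm_neg, norm_one, one_pow, one_mul, AP_neg, norm_smul, norm_pow,
      norm_neg, norm_one, one_pow, one_mul]
    have hs0 : 0 ≤ ∑ i ∈ S, (k i : ℤ) := Finset.sum_nonneg fun i _ => Int.natCast_nonneg _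
    have hsle : ∑ i ∈ S, (k i : ℤ) ≤ ∑ i ∈ Finset.Icc 1 m, (k i : ℤ) :=
      Finset.sum_le_sum_of_subset_of_nonneg hS' fun i _ _ => Int.natCast_nonneg _
    have hw0 : 0 ≤ ∑ i ∈ S, (i : ℤ) * (k i : ℤ) := Finset.sum_nonneg fun i _ => by positivity
    have hwle : ∑ i ∈ S, (i : ℤ) * (k i : ℤ) ≤ (m : ℤ) * ∑ i ∈ S, (k i : ℤ) := by
      rw [Finset.mul_sum]
      refine Finset.sum_le_sum fun i hi => ?_
      have hi' := Finset.mem_Icc.1 (hS' hi)
      have : (i : ℤ) ≤ (m : ℤ) := by exact_mod_cast hi'.2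
      exact mul_le_mul_of_nonneg_right this (Int.natCast_nonneg _)
    have hm0 : (0 : ℤ) ≤ (m : ℤ) := Int.natCast_nonneg _
    rcases hs0.eq_or_lt with hs | hs
    · rw [← hs, AP_zero_step m hm, norm_zero]
      exact hd
    · refine hg _ _ hs ?_ ?_
      · nlinarith
      · nlinarith
  refine le_trans (Finset.sum_le_sum hterm) ?_
  rw [Finset.sum_const, Finset.card_powerset, Nat.card_Icc, nsmul_eq_mul]
  simp

end Pool.APP
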