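import Mathlib
import Pool.Agent.H8.APP.Hyers
import Pool.Agent.H8.APP.MD

/-!
# AP => polynomial, part 3: discrete Whitney theorem

If all AP differences of order `n + 1` inside an interval are at most `d`, then on a subinterval of
proportional length the function is within `C d` of a polynomial of degree at most `n`.
-/

set_option autoImplicit false

namespace Pool.APP

open Finset

variable {E : Type*} [NormedAddCommGroup E] [NormedSpace ℝ E]

theorem MD_comp_add (I : Finset ℕ) (g : ℤ → E) (h : ℕ → ℤ) (t s : ℤ) :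
    MD I g h (t + s) = MD I (fun x => g (x + s)) h t := by
  unfold MD
  refine Finset.sum_congr rfl fun S _ => ?_
  congr 2
  ring

theorem MD_smul_const (I : Finset ℕ) (φ : ℤ → ℝ) (c : E) (h : ℕ → ℤ) (t : ℤ) :
    MD I (fun x => φ x • c) h t = (MD I φ h t) • c := by
  unfold MD
  rw [Finset.sum_smul]
  refine Finset.sum_congr rfl fun S _ => ?_
  rw [smul_smul, smul_eq_mul]

theorem AP_smul_const (m : ℕ) (φ : ℤ → ℝ) (c : E) (t h : ℤ) :
    AP m (fun x => φ x • c) t h = (AP m φ t h) • c := by
  unfold AP
  rw [Finset.sum_smul]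
  refine Finset.sum_congr rfl fun S _ => ?_
  rw [smul_smul, smul_eq_mul]

theorem MD_sum (I : Finset ℕ) {ι : Type*} (s : Finset ι) (φ : ι → ℤ → E) (h : ℕ → ℤ) (t : ℤ) :
    MD I (fun x => ∑ i ∈ s, φ i x) h t = ∑ i ∈ s, MD I (φ i) h t := by
  unfold MD
  rw [Finset.sum_comm]
  refine Finset.sum_congr rfl fun S _ => ?_
  rw [Finset.smul_sum]

theorem MD_mul_left (I : Finset ℕ) (φ : ℤ → ℝ) (c : ℝ) (h : ℕ → ℤ) (t : ℤ) :
    MD I (fun x => c * φ x) h t = c * MD I φ h t := by
  unfold MD
  rw [Finset.mul_sum]
  refine Finset.sum_congr rfl fun S _ => ?_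
  simp only [smul_eq_mul]
  ring

/-- multi-differences of powers -/
theorem MD_pow (I : Finset ℕ) (h : ℕ → ℤ) : ∀ i : ℕ, i ≤ I.card → ∀ t : ℤ,
    MD I (fun x : ℤ => (x : ℝ) ^ i) h t =
      if i = I.card then (-1 : ℝ) ^ I.card * (I.card.factorial : ℝ) * ∏ j ∈ I, (h j : ℝ) else 0 := by
  classical
  induction I using Finset.induction_on with
  | empty =>
    intro i hi t
    have hi0 : i = 0 := by simpa using hi
    subst hi0
    rw [MD_empty]
    simp
  | insert j I hj ih =>
    intro i hi t
    rw [Finset.card_insert_of_notMem hj] at hi ⊢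
    rw [MD_insert hj, MD_comp_add, ← MD_sub]
    have h1 : (fun x : ℤ => (x : ℝ) ^ i - ((x + h j : ℤ) : ℝ) ^ i) =
        fun x : ℤ => ∑ r ∈ range i, (-((h j : ℝ) ^ (i - r) * (i.choose r : ℝ))) * (x : ℝ) ^ r := by
      funext x
      push_cast
      rw [add_pow, Finset.sum_range_succ]
      simp only [Nat.sub_self, pow_zero, mul_one, Nat.choose_self, Nat.cast_one]
      rw [sub_add_eq_sub_sub, sub_right_comm, sub_self, zero_sub, ← Finset.sum_neg_distrib]
      refine Finset.sum_congr rfl fun r _ => ?_
      ring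
    rw [h1, MD_sum]
    have h2 : ∀ r ∈ range i, MD I (fun x : ℤ => (-((h j : ℝ) ^ (i - r) * (i.choose r : ℝ))) *
        (x : ℝ) ^ r) h t = if r = I.card then (-((h j : ℝ) ^ (i - r) * (i.choose r : ℝ))) *
          ((-1 : ℝ) ^ I.card * (I.card.factorial : ℝ) * ∏ j ∈ I, (h j : ℝ)) else 0 := by
      intro r hr
      have hr' : r < i := Finset.mem_range.1 hr
      rw [MD_mul_left, ih r (by omega) t]
      split_ifs <;> simp
    rw [Finset.sum_congr rfl h2, Finset.sum_ite_eq']
    by_cases hic : i = I.card + 1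
    · rw [if_pos hic, if_pos (Finset.mem_range.2 (by omega))]
      subst hic
      rw [Finset.prod_insert hj, Nat.factorial_succ, Nat.choose_succ_self_right]
      have : I.card + 1 - I.card = 1 := by omega
      rw [this]
      push_cast
      ring
    · rw [if_neg hic, if_neg]
      intro h'
      have := Finset.mem_range.1 h'
      omega

theorem AP_pow (m i : ℕ) (him : i < m) (t h : ℤ) : AP m (fun x : ℤ => (x : ℝ) ^ i) t h = 0 := by
  have h1 := MD_const (E := ℝ) (Finset.range m) (fun x : ℤ => (x : ℝ) ^ i) (fun _ : ℕ => h) h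
    (fun _ _ => rfl) t
  rw [Finset.card_range] at h1
  rw [← h1, MD_pow (Finset.range m) _ i (by rw [Finset.card_range]; omega) t, Finset.card_range,
    if_neg (by omega)]

/-- telescoping of a long step -/
theorem MD_long {I : Finset ℕ} {i : ℕ} (hi : i ∈ I) (g : ℤ → E) (h : ℕ → ℤ) (x : ℤ) (L : ℕ)
    (t : ℤ) : MD I g (Function.update h i ((L : ℤ) * x)) t =
      ∑ r ∈ range L, MD I g (Function.update h i x) (t + (r : ℤ) * x) := by
  classical
  induction L with
  | zero =>
    simp only [Nat.cast_zero, zero_mul, Finset.range_zero, Finset.sum_empty]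
    exact MD_zero_step hi g _ (Function.update_self _ _ _) t
  | succ L ih =>
    have h1 : (((L + 1 : ℕ) : ℤ) * x) = (L : ℤ) * x + x := by push_cast; ring
    rw [h1, MD_add_step hi, ih, Finset.sum_range_succ]

/-- `D(t) - D(t + h)` for AP differences -/
theorem AP_succ (m : ℕ) (g : ℤ → E) (t h : ℤ) :
    AP m g t h - AP m g (t + h) h = AP (m + 1) g t h := by
  have h1 := MD_const (Finset.range m) g (fun _ : ℕ => h) h (fun _ _ => rfl)
  rw [Finset.card_range] at h1
  have h2 := MD_const (Finset.range (m + 1)) g (fun _ : ℕ => h) h (fun _ _ => rfl) t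
  rw [Finset.card_range] at h2
  rw [← h1, ← h1, ← h2, Finset.range_add_one, MD_insert Finset.notMem_range_self]

/-- the scale factor -/
def Kw : ℕ → ℕ
  | 0 => 1
  | n + 1 => 6 * (n + 2) ^ 2 * (n + 2).factorial * Kw n

/-- the error factor -/
noncomputable def Cw : ℕ → ℝ
  | 0 => 1
  | n + 1 => Cw n * ((3 * (n : ℝ) + 4) * 2 ^ (n + 2) +
      ((n : ℝ) + 1) * ((n + 2).factorial : ℝ) ^ (n + 2))

theorem Kw_pos (n : ℕ) : 1 ≤ Kw n := by
  induction n with
  | zero => exact le_refl _
  | succ n ih =>
    have h1 : 0 < (n + 2).factorial := Nat.factorial_pos _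
    show 0 < 6 * (n + 2) ^ 2 * (n + 2).factorial * Kw n
    positivity

theorem Cw_nonneg (n : ℕ) : 0 ≤ Cw n := by
  induction n with
  | zero => exact zero_le_one
  | succ n ih =>
    show 0 ≤ Cw n * _
    positivity

/-- long steps against short ones -/
theorem long_short (n L : ℕ) (hL : 1 ≤ L) (g : ℤ → E) (d : ℝ) (a b h : ℤ) (hh : 1 ≤ h)
    (hg : ∀ u : ℤ, a ≤ u → u + ((n : ℤ) + 1) * h ≤ b → ‖AP (n + 1) g u h‖ ≤ d) (I : Finset ℕ)
    (hI : I.card = n) (hd : 0 ≤ d) :
    ∀ J : Finset ℕ, J ⊆ I → ∀ t : ℤ, a ≤ t → t + ((J.card : ℤ) * L + n + 1) * h ≤ b →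
      ‖MD I g (fun i => if i ∈ J then (L : ℤ) * h else h) t - ((L : ℝ) ^ J.card) • AP n g t h‖ ≤
        (J.card : ℝ) * (L : ℝ) ^ (J.card + 1) * d := by
  classical
  intro J
  induction J using Finset.induction_on with
  | empty =>
    intro _ t _ _
    have h1 : MD I g (fun i => if i ∈ (∅ : Finset ℕ) then (L : ℤ) * h else h) t = AP n g t h := by
      rw [← hI]
      refine MD_const I g _ h (fun i _ => ?_) t
      simp
    rw [h1]
    simp
  | insert j J hj ih =>
    intro hJI t hat htb
    have hJI' : J ⊆ I := fun x hx => hJI (Finset.mem_insert_of_mem hx)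
    have hjI : j ∈ I := hJI (Finset.mem_insert_self j J)
    rw [Finset.card_insert_of_notMem hj] at htb ⊢
    have h1 : (fun i => if i ∈ insert j J then (L : ℤ) * h else h) =
        Function.update (fun i => if i ∈ J then (L : ℤ) * h else h) j ((L : ℤ) * h) := by
      funext i
      by_cases hij : i = j
      · subst hij; simp
      · rw [Function.update_of_ne hij]
        simp [Finset.mem_insert, hij]
    have h2 : Function.update (fun i => if i ∈ J then (L : ℤ) * h else h) j h =
        fun i => if i ∈ J then (L : ℤ) * h else h := by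
      funext i
      by_cases hij : i = j
      · subst hij; simp [hj]
      · rw [Function.update_of_ne hij]
    rw [h1, MD_long hjI, h2]
    -- the differences of `AP n`
    have hD : ∀ r : ℕ, r ≤ L → ‖AP n g (t + (r : ℤ) * h) h - AP n g t h‖ ≤ (r : ℝ) * d := by
      intro r
      induction r with
      | zero => intro _; simp
      | succ r ihr =>
        intro hr
        have h3 := ihr (by omega)
        have h4 := AP_succ n g (t + (r : ℤ) * h) h
        have h5 : t + (r : ℤ) * h + h = t + ((r + 1 : ℕ) : ℤ) * h := by push_cast; ring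
        rw [h5] at h4
        have h6 : ‖AP (n + 1) g (t + (r : ℤ) * h) h‖ ≤ d := by
          refine hg _ ?_ ?_
          · have : 0 ≤ (r : ℤ) * h := by positivity
            linarith
          · have h7 : ((r : ℤ) + n + 1) * h ≤ (((J.card + 1 : ℕ) : ℤ) * L + n + 1) * h := by
              refine mul_le_mul_of_nonneg_right ?_ (by omega)
              have h8 : (r : ℤ) ≤ L := by exact_mod_cast (by omega : r ≤ L)
              have h9 : (0 : ℤ) ≤ (J.card : ℤ) * L := by positivity
              push_cast
              nlinarith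
            nlinarith
        have h7 : AP n g (t + ((r + 1 : ℕ) : ℤ) * h) h - AP n g t h =
            (AP n g (t + (r : ℤ) * h) h - AP n g t h) - AP (n + 1) g (t + (r : ℤ) * h) h := by
          rw [← h4]; abel
        rw [h7]
        refine le_trans (norm_sub_le _ _) ?_
        push_cast
        linarith
    have h3 : ((L : ℝ) ^ (J.card + 1)) • AP n g t h =
        ∑ r ∈ range L, ((L : ℝ) ^ J.card) • AP n g t h := by
      rw [Finset.sum_const, Finset.card_range, ← Nat.cast_smul_eq_nsmul ℝ, smul_smul, pow_succ,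
        mul_comm]
    rw [h3, ← Finset.sum_sub_distrib]
    refine le_trans (norm_sum_le _ _) ?_
    have hterm : ∀ r ∈ range L, ‖MD I g (fun i => if i ∈ J then (L : ℤ) * h else h)
        (t + (r : ℤ) * h) - ((L : ℝ) ^ J.card) • AP n g t h‖ ≤
        (J.card : ℝ) * (L : ℝ) ^ (J.card + 1) * d + (L : ℝ) ^ J.card * ((L : ℝ) * d) := by
      intro r hr
      have hr' : r < L := Finset.mem_range.1 hr
      have h4 : ‖MD I g (fun i => if i ∈ J then (L : ℤ) * h else h) (t + (r : ℤ) * h) -
          ((L : ℝ) ^ J.card) • AP n g (t + (r : ℤ) * h) h‖ ≤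
          (J.card : ℝ) * (L : ℝ) ^ (J.card + 1) * d := by
        refine ih hJI' _ ?_ ?_
        · have : 0 ≤ (r : ℤ) * h := by positivity
          linarith
        · have h7 : ((r : ℤ) + ((J.card : ℤ) * L + n + 1)) * h ≤
              (((J.card + 1 : ℕ) : ℤ) * L + n + 1) * h := by
            refine mul_le_mul_of_nonneg_right ?_ (by omega)
            have h8 : (r : ℤ) ≤ L := by exact_mod_cast (by omega : r ≤ L)
            push_cast
            nlinarith
          nlinarith
      have h5 := hD r hr'.le
      have h6 : ‖((L : ℝ) ^ J.card) • AP n g (t + (r : ℤ) * h) h -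
          ((L : ℝ) ^ J.card) • AP n g t h‖ ≤ (L : ℝ) ^ J.card * ((L : ℝ) * d) := by
        rw [← smul_sub, norm_smul, norm_pow, Real.norm_natCast]
        refine mul_le_mul_of_nonneg_left (le_trans h5 ?_) (by positivity)
        have : (r : ℝ) ≤ (L : ℝ) := by exact_mod_cast hr'.le
        exact mul_le_mul_of_nonneg_right this hd
      have h7 : MD I g (fun i => if i ∈ J then (L : ℤ) * h else h) (t + (r : ℤ) * h) -
          ((L : ℝ) ^ J.card) • AP n g t h =
          (MD I g (fun i => if i ∈ J then (L : ℤ) * h else h) (t + (r : ℤ) * h) -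
            ((L : ℝ) ^ J.card) • AP n g (t + (r : ℤ) * h) h) +
          (((L : ℝ) ^ J.card) • AP n g (t + (r : ℤ) * h) h -
            ((L : ℝ) ^ J.card) • AP n g t h) := by abel
      rw [h7]
      exact le_trans (norm_add_le _ _) (add_le_add h4 h6)
    refine le_trans (Finset.sum_le_sum hterm) ?_
    rw [Finset.sum_const, Finset.card_range, nsmul_eq_mul]
    refine le_of_eq ?_
    push_cast
    ring

end Pool.APP
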