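import Mathlib
import Pool.Agent.H8.APP.Whit

/-!
# AP => polynomial, part 5: extension of smallness along AP relations

If most AP differences of `f` inside `[0, N)` are at most `ε` and `f` is at most `λ` at most points of
an interval of proportional length, then `f` is at most `C (λ + ε)` at most points of `[0, N)`.
-/

set_option autoImplicit false

namespace Pool.APP

open Finset

variable {E : Type*} [NormedAddCommGroup E] [NormedSpace ℝ E]

/-- the bad AP's inside `[0, N)` -/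
noncomputable def badAP (m N : ℕ) (f : ℤ → E) (ε : ℝ) : Finset (ℤ × ℤ) := by
  classical
  exact ((Finset.Ico (0 : ℤ) N) ×ˢ (Finset.Icc (1 : ℤ) N)).filter
    (fun x => x.1 + (m : ℤ) * x.2 < N ∧ ε < ‖AP m f x.1 x.2‖)

/-- the points of `[u, v]` where `f` is larger than `lam` -/
noncomputable def big (f : ℤ → E) (lam : ℝ) (u v : ℤ) : Finset ℤ := by
  classical
  exact (Finset.Icc u v).filter (fun t => lam < ‖f t‖)

theorem mem_badAP {m N : ℕ} {f : ℤ → E} {ε : ℝ} {x : ℤ × ℤ} :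
    x ∈ badAP m N f ε ↔ (0 ≤ x.1 ∧ x.1 < N) ∧ (1 ≤ x.2 ∧ x.2 ≤ N) ∧
      x.1 + (m : ℤ) * x.2 < N ∧ ε < ‖AP m f x.1 x.2‖ := by
  classical
  unfold badAP
  rw [Finset.mem_filter, Finset.mem_product, Finset.mem_Ico, Finset.mem_Icc]
  tauto

omit [NormedSpace ℝ E] in
theorem mem_big {f : ℤ → E} {lam : ℝ} {u v t : ℤ} :
    t ∈ big f lam u v ↔ (u ≤ t ∧ t ≤ v) ∧ lam < ‖f t‖ := by
  classical
  unfold big
  rw [Finset.mem_filter, Finset.mem_Icc]

/-- the last term of an AP difference from the others -/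
theorem last_le (m : ℕ) (f : ℤ → E) (t h : ℤ) (ε lam : ℝ)
    (hAP : ‖AP m f t h‖ ≤ ε) (hl : 0 ≤ lam)
    (hj : ∀ j : ℕ, j < m → ‖f (t + (j : ℤ) * h)‖ ≤ lam) :
    ‖f (t + (m : ℤ) * h)‖ ≤ 2 ^ m * lam + ε := by
  have h1 : AP m f t h = (∑ j ∈ range m, ((-1 : ℝ) ^ j * (m.choose j : ℝ)) •
      f (t + (j : ℤ) * h)) + ((-1 : ℝ) ^ m) • f (t + (m : ℤ) * h) := by
    unfold AP
    rw [Finset.sum_range_succ, Nat.choose_self, Nat.cast_one, mul_one]
  have h2 : ‖((-1 : ℝ) ^ m) • f (t + (m : ℤ) * h)‖ = ‖f (t + (m : ℤ) * h)‖ := by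
    rw [norm_smul, norm_pow, norm_neg, norm_one, one_pow, one_mul]
  have h3 : ((-1 : ℝ) ^ m) • f (t + (m : ℤ) * h) = AP m f t h -
      ∑ j ∈ range m, ((-1 : ℝ) ^ j * (m.choose j : ℝ)) • f (t + (j : ℤ) * h) := by
    rw [h1]; abel
  rw [← h2, h3]
  refine le_trans (norm_sub_le _ _) ?_
  have h4 : ‖∑ j ∈ range m, ((-1 : ℝ) ^ j * (m.choose j : ℝ)) • f (t + (j : ℤ) * h)‖ ≤
      2 ^ m * lam := by
    refine le_trans (norm_sum_le _ _) ?_
    have h5 : ∀ j ∈ range m, ‖((-1 : ℝ) ^ j * (m.choose j : ℝ)) • f (t + (j : ℤ) * h)‖ ≤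
        (m.choose j : ℝ) * lam := by
      intro j hjm
      rw [norm_smul, norm_mul, norm_pow, norm_neg, norm_one, one_pow, one_mul, Real.norm_natCast]
      exact mul_le_mul_of_nonneg_left (hj j (Finset.mem_range.1 hjm)) (Nat.cast_nonneg _)
    refine le_trans (Finset.sum_le_sum h5) ?_
    rw [← Finset.sum_mul]
    refine mul_le_mul_of_nonneg_right ?_ hl
    have h6 : (∑ j ∈ range (m + 1), (m.choose j : ℝ)) = 2 ^ m := by
      have := Nat.sum_range_choose m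
      exact_mod_cast this
    rw [← h6, Finset.sum_range_succ]
    linarith [(Nat.cast_nonneg (m.choose m) : (0 : ℝ) ≤ (m.choose m : ℝ))]
  linarith

/-- one step to the right -/
theorem ext_right (m N : ℕ) (hm : 1 ≤ m) (f : ℤ → E) (ε lam : ℝ) (hl : 0 ≤ lam) (u v : ℤ)
    (hu : 0 ≤ u) (w : ℕ) (hw : 1 ≤ w) (hvu : u + 2 * (m : ℤ) * (w : ℤ) ≤ v) :
    (((big f (2 ^ m * lam + ε) (v + 1) (min (v + w) (N - 1))).card : ℕ) : ℝ) * ((w : ℝ) + 1) ≤
      ((badAP m N f ε).card : ℝ) + (m : ℝ) * ((big f lam u v).card : ℝ) * ((w : ℝ) + 1) := by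
  classical
  set S := big f (2 ^ m * lam + ε) (v + 1) (min (v + w) (N - 1)) with hS
  set H := Finset.Icc (w : ℤ) (2 * w) with hH
  have hHcard : H.card = w + 1 := by
    rw [hH, Int.card_Icc]
    have : (2 * (w : ℤ) + 1 - (w : ℤ)) = ((w + 1 : ℕ) : ℤ) := by push_cast; ring
    rw [this, Int.toNat_natCast]
  -- the covering
  have hcover : ∀ x ∈ S ×ˢ H, (x.1 - (m : ℤ) * x.2, x.2) ∈ badAP m N f ε ∨
      ∃ j ∈ Finset.Icc 1 m, x.1 - (j : ℤ) * x.2 ∈ big f lam u v := by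
    intro x hx
    obtain ⟨hx1, hx2⟩ := Finset.mem_product.1 hx
    rw [hS, mem_big] at hx1
    obtain ⟨⟨ha, hb⟩, hc⟩ := hx1
    rw [hH, Finset.mem_Icc] at hx2
    obtain ⟨hd, he⟩ := hx2
    have hb1 : x.1 ≤ v + w := le_trans hb (min_le_left _ _)
    have hb2 : x.1 ≤ N - 1 := le_trans hb (min_le_right _ _)
    have hm0 : (0 : ℤ) ≤ (m : ℤ) := Int.natCast_nonneg _
    have hw0 : (1 : ℤ) ≤ (w : ℤ) := by exact_mod_cast hw
    have hmx : (m : ℤ) * x.2 ≤ 2 * (m : ℤ) * (w : ℤ) := by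
      have := mul_le_mul_of_nonneg_left he hm0
      linarith
    by_contra hcon
    push Not at hcon
    obtain ⟨h1, h2⟩ := hcon
    have hAP : ‖AP m f (x.1 - (m : ℤ) * x.2) x.2‖ ≤ ε := by
      by_contra h3
      push Not at h3
      refine h1 (mem_badAP.2 ⟨⟨?_, ?_⟩, ⟨?_, ?_⟩, ?_, h3⟩)
      · show 0 ≤ x.1 - (m : ℤ) * x.2
        linarith
      · show x.1 - (m : ℤ) * x.2 < N
        have : 0 ≤ (m : ℤ) * x.2 := mul_nonneg hm0 (by linarith)
        linarith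
      · show 1 ≤ x.2
        linarith
      · show x.2 ≤ N
        have h4 : x.2 ≤ (m : ℤ) * x.2 := by
          have : (1 : ℤ) ≤ (m : ℤ) := by exact_mod_cast hm
          nlinarith
        linarith
      · show x.1 - (m : ℤ) * x.2 + (m : ℤ) * x.2 < N
        linarith
    have hle : ‖f (x.1 - (m : ℤ) * x.2 + (m : ℤ) * x.2)‖ ≤ 2 ^ m * lam + ε := by
      refine last_le m f _ _ ε lam hAP hl fun j hjm => ?_
      have h4 : x.1 - (m : ℤ) * x.2 + (j : ℤ) * x.2 = x.1 - ((m - j : ℕ) : ℤ) * x.2 := by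
        rw [Nat.cast_sub hjm.le]; ring
      rw [h4]
      have h5 := h2 (m - j) (Finset.mem_Icc.2 ⟨by omega, by omega⟩)
      by_contra h6
      push Not at h6
      refine h5 (mem_big.2 ⟨⟨?_, ?_⟩, h6⟩)
      · have h7 : ((m - j : ℕ) : ℤ) * x.2 ≤ (m : ℤ) * x.2 := by
          refine mul_le_mul_of_nonneg_right ?_ (by linarith)
          exact_mod_cast Nat.sub_le _ _
        linarith
      · have h7 : x.2 ≤ ((m - j : ℕ) : ℤ) * x.2 := by
          have : (1 : ℤ) ≤ ((m - j : ℕ) : ℤ) := by exact_mod_cast (by omega : 1 ≤ m - j)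
          nlinarith
        linarith
    rw [sub_add_cancel] at hle
    linarith
  -- the count
  set P0 := (S ×ˢ H).filter (fun x => (x.1 - (m : ℤ) * x.2, x.2) ∈ badAP m N f ε) with hP0
  set P := fun j : ℕ => (S ×ˢ H).filter (fun x => x.1 - (j : ℤ) * x.2 ∈ big f lam u v) with hP
  have hsub : S ×ˢ H ⊆ P0 ∪ (Finset.Icc 1 m).biUnion P := by
    intro x hx
    rcases hcover x hx with h | ⟨j, hj, h⟩
    · exact Finset.mem_union_left _ (Finset.mem_filter.2 ⟨hx, h⟩)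
    · exact Finset.mem_union_right _ (Finset.mem_biUnion.2 ⟨j, hj, Finset.mem_filter.2 ⟨hx, h⟩⟩)
  have hc0 : P0.card ≤ (badAP m N f ε).card := by
    refine Finset.card_le_card_of_injOn (fun x => (x.1 - (m : ℤ) * x.2, x.2))
      (fun x hx => (Finset.mem_filter.1 hx).2) ?_
    intro x _ y _ hxy
    simp only [Prod.mk.injEq] at hxy
    obtain ⟨h1, h2⟩ := hxy
    rw [h2] at h1
    exact Prod.ext (by linarith) h2
  have hcj : ∀ j ∈ Finset.Icc 1 m, (P j).card ≤ (big f lam u v).card * (w + 1) := by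
    intro j _
    have h1 : (P j).card ≤ (big f lam u v ×ˢ H).card := by
      refine Finset.card_le_card_of_injOn (fun x => (x.1 - (j : ℤ) * x.2, x.2))
        (fun x hx => ?_) ?_
      · have h2 := Finset.mem_filter.1 hx
        exact Finset.mem_product.2 ⟨h2.2, (Finset.mem_product.1 h2.1).2⟩
      · intro x _ y _ hxy
        simp only [Prod.mk.injEq] at hxy
        obtain ⟨h1, h2⟩ := hxy
        rw [h2] at h1
        exact Prod.ext (by linarith) h2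
    rwa [Finset.card_product, hHcard] at h1
  have htot : S.card * (w + 1) ≤ (badAP m N f ε).card + m * ((big f lam u v).card * (w + 1)) := by
    have h1 : (S ×ˢ H).card = S.card * (w + 1) := by rw [Finset.card_product, hHcard]
    rw [← h1]
    refine le_trans (Finset.card_le_card hsub) (le_trans (Finset.card_union_le _ _) ?_)
    refine add_le_add hc0 ?_
    refine le_trans Finset.card_biUnion_le ?_
    refine le_trans (Finset.sum_le_sum hcj) ?_
    rw [Finset.sum_const, Nat.card_Icc, smul_eq_mul]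
    exact le_of_eq (by congr 1)
  have h2 : ((S.card * (w + 1) : ℕ) : ℝ) ≤
      (((badAP m N f ε).card + m * ((big f lam u v).card * (w + 1)) : ℕ) : ℝ) := by
    exact_mod_cast htot
  push_cast at h2
  linarith

omit [NormedSpace ℝ E] in
theorem big_split (f : ℤ → E) {lam lam' : ℝ} (hll : lam ≤ lam') (u v v' : ℤ) :
    (big f lam' u v').card ≤ (big f lam u v).card + (big f lam' (v + 1) v').card := by
  classical
  have hsub : big f lam' u v' ⊆ big f lam u v ∪ big f lam' (v + 1) v' := by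
    intro t ht
    obtain ⟨⟨h1, h2⟩, h3⟩ := mem_big.1 ht
    rcases le_or_gt t v with h | h
    · exact Finset.mem_union_left _ (mem_big.2 ⟨⟨h1, h⟩, lt_of_le_of_lt hll h3⟩)
    · exact Finset.mem_union_right _ (mem_big.2 ⟨⟨by omega, h2⟩, h3⟩)
  exact le_trans (Finset.card_le_card hsub) (Finset.card_union_le _ _)

/-- many steps to the right -/
theorem ext_many (m N : ℕ) (hm : 1 ≤ m) (f : ℤ → E) (ε lam : ℝ) (hl : 0 ≤ lam) (hε : 0 ≤ ε)
    (u v : ℤ) (hu : 0 ≤ u) (w : ℕ) (hw : 1 ≤ w) (hvu : u + 2 * (m : ℤ) * (w : ℤ) ≤ v)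
    (hvN : v ≤ N - 1) (s : ℕ) :
    ∃ lam' : ℝ, lam ≤ lam' ∧ lam' + ε ≤ (2 ^ m + 1) ^ s * (lam + ε) ∧
      (((big f lam' u (min (v + s * w) (N - 1))).card : ℕ) : ℝ) ≤
      ((m : ℝ) + 1) ^ s * (((big f lam u v).card : ℝ) +
        (s : ℝ) * (((badAP m N f ε).card : ℝ) / ((w : ℝ) + 1))) := by
  induction s with
  | zero =>
    refine ⟨lam, le_refl _, by simp, ?_⟩
    have h1 : min (v + ((0 : ℕ) : ℤ) * (w : ℤ)) ((N : ℤ) - 1) = v := by
      rw [Nat.cast_zero, zero_mul, add_zero, min_eq_left hvN]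
    rw [h1]
    simp
  | succ s ih =>
    obtain ⟨l1, hl1, hl1', hl2⟩ := ih
    have hl10 : 0 ≤ l1 := le_trans hl hl1
    set v1 := min (v + (s : ℤ) * (w : ℤ)) ((N : ℤ) - 1) with hv1
    have hvv1 : v ≤ v1 := by
      refine le_min ?_ hvN
      have : (0 : ℤ) ≤ (s : ℤ) * (w : ℤ) := by positivity
      linarith
    have hstep := ext_right m N hm f ε l1 hl10 u v1 hu w hw (by linarith)
    have hmin : min (v1 + (w : ℤ)) ((N : ℤ) - 1) =
        min (v + ((s + 1 : ℕ) : ℤ) * (w : ℤ)) ((N : ℤ) - 1) := by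
      have hw0 : (0 : ℤ) ≤ (w : ℤ) := Int.natCast_nonneg _
      have e1 : v + ((s + 1 : ℕ) : ℤ) * (w : ℤ) = (v + (s : ℤ) * (w : ℤ)) + (w : ℤ) := by
        push_cast; ring
      rw [e1, hv1]
      rcases le_total (v + (s : ℤ) * (w : ℤ)) ((N : ℤ) - 1) with h | h
      · rw [min_eq_left h]
      · rw [min_eq_right h, min_eq_right (by linarith), min_eq_right (by linarith)]
    have hW : (0 : ℝ) < (w : ℝ) + 1 := by positivity
    set B : ℝ := ((badAP m N f ε).card : ℝ) with hB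
    have hB0 : 0 ≤ B := Nat.cast_nonneg _
    have h2m : (0 : ℝ) ≤ 2 ^ m := by positivity
    have h2m1 : (1 : ℝ) ≤ 2 ^ m := one_le_pow₀ (by norm_num)
    have hll : l1 ≤ 2 ^ m * l1 + ε := by nlinarith
    refine ⟨2 ^ m * l1 + ε, le_trans hl1 hll, ?_, ?_⟩
    · have h3 : 2 ^ m * l1 + ε + ε ≤ (2 ^ m + 1) * (l1 + ε) := by nlinarith
      calc 2 ^ m * l1 + ε + ε ≤ (2 ^ m + 1) * (l1 + ε) := h3
        _ ≤ (2 ^ m + 1) * ((2 ^ m + 1) ^ s * (lam + ε)) :=
          mul_le_mul_of_nonneg_left hl1' (by positivity)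
        _ = (2 ^ m + 1) ^ (s + 1) * (lam + ε) := by ring
    · rw [← hmin]
      have hsplit := big_split f hll u v1 (min (v1 + (w : ℤ)) ((N : ℤ) - 1))
      have hsplit' : (((big f (2 ^ m * l1 + ε) u (min (v1 + (w : ℤ)) ((N : ℤ) - 1))).card : ℕ) : ℝ)
          ≤ ((big f l1 u v1).card : ℝ) +
            ((big f (2 ^ m * l1 + ε) (v1 + 1) (min (v1 + (w : ℤ)) ((N : ℤ) - 1))).card : ℝ) := by
        exact_mod_cast hsplit
      set X : ℝ := ((big f l1 u v1).card : ℝ) with hX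
      set Y : ℝ := ((big f (2 ^ m * l1 + ε) (v1 + 1)
        (min (v1 + (w : ℤ)) ((N : ℤ) - 1))).card : ℝ) with hY
      have hY' : Y ≤ B / ((w : ℝ) + 1) + (m : ℝ) * X := by
        rw [← sub_le_iff_le_add, le_div_iff₀ hW]
        nlinarith
      set Q : ℝ := ((big f lam u v).card : ℝ) with hQ
      have hb : 0 ≤ B / ((w : ℝ) + 1) := div_nonneg hB0 hW.le
      set b : ℝ := B / ((w : ℝ) + 1) with hbdef
      have hm1 : (1 : ℝ) ≤ ((m : ℝ) + 1) ^ s := one_le_pow₀ (by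
        have : (0 : ℝ) ≤ (m : ℝ) := Nat.cast_nonneg _
        linarith)
      have h4 : X + Y ≤ ((m : ℝ) + 1) * X + b := by linarith
      have h5 : ((m : ℝ) + 1) * X ≤ ((m : ℝ) + 1) * (((m : ℝ) + 1) ^ s * (Q + (s : ℝ) * b)) :=
        mul_le_mul_of_nonneg_left hl2 (by positivity)
      have h6 : b ≤ ((m : ℝ) + 1) ^ (s + 1) * b := by
        refine le_mul_of_one_le_left hb ?_
        exact one_le_pow₀ (by
          have : (0 : ℝ) ≤ (m : ℝ) := Nat.cast_nonneg _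
          linarith)
      refine le_trans hsplit' (le_trans h4 ?_)
      have h7 : ((m : ℝ) + 1) ^ (s + 1) * (Q + ((s + 1 : ℕ) : ℝ) * b) =
          ((m : ℝ) + 1) * (((m : ℝ) + 1) ^ s * (Q + (s : ℝ) * b)) +
            ((m : ℝ) + 1) ^ (s + 1) * b := by
        push_cast; ring
      rw [h7]
      linarith

/-- reflection -/
theorem badAP_refl (m N : ℕ) (f : ℤ → E) (ε : ℝ) :
    (badAP m N (fun t => f ((N : ℤ) - 1 - t)) ε).card ≤ (badAP m N f ε).card := by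
  classical
  refine Finset.card_le_card_of_injOn (fun x => ((N : ℤ) - 1 - x.1 - (m : ℤ) * x.2, x.2)) ?_ ?_
  · intro x hx
    obtain ⟨⟨h1, h2⟩, ⟨h3, h4⟩, h5, h6⟩ := mem_badAP.1 hx
    refine mem_badAP.2 ⟨⟨?_, ?_⟩, ⟨h3, h4⟩, ?_, ?_⟩
    · show 0 ≤ (N : ℤ) - 1 - x.1 - (m : ℤ) * x.2
      omega
    · show (N : ℤ) - 1 - x.1 - (m : ℤ) * x.2 < N
      have : 0 ≤ (m : ℤ) * x.2 := mul_nonneg (Int.natCast_nonneg _) (by linarith)
      omega
    · show (N : ℤ) - 1 - x.1 - (m : ℤ) * x.2 + (m : ℤ) * x.2 < N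
      omega
    · show ε < ‖AP m f ((N : ℤ) - 1 - x.1 - (m : ℤ) * x.2) x.2‖
      have h7 : AP m (fun t => f ((N : ℤ) - 1 - t)) x.1 x.2 =
          AP m f ((N : ℤ) - 1 - x.1) (-x.2) := by
        unfold AP
        refine Finset.sum_congr rfl fun j _ => ?_
        have h8 : (N : ℤ) - 1 - (x.1 + (j : ℤ) * x.2) = (N : ℤ) - 1 - x.1 + (j : ℤ) * -x.2 := by
          ring
        simp only [h8]
      rw [h7, AP_neg, norm_smul, norm_pow, norm_neg, norm_one, one_pow, one_mul] at h6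
      exact h6
  · intro x _ y _ hxy
    simp only [Prod.mk.injEq] at hxy
    obtain ⟨h1, h2⟩ := hxy
    rw [h2] at h1
    exact Prod.ext (by linarith) h2

omit [NormedSpace ℝ E] in
theorem big_refl (f : ℤ → E) (lam : ℝ) (c u v : ℤ) :
    (big (fun t => f (c - t)) lam u v).card = (big f lam (c - v) (c - u)).card := by
  classical
  refine Finset.card_bij (fun t _ => c - t) ?_ ?_ ?_
  · intro t ht
    obtain ⟨⟨h1, h2⟩, h3⟩ := mem_big.1 ht
    exact mem_big.2 ⟨⟨by linarith, by linarith⟩, h3⟩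
  · intro t _ t' _ h
    linarith
  · intro t ht
    obtain ⟨⟨h1, h2⟩, h3⟩ := mem_big.1 ht
    refine ⟨c - t, mem_big.2 ⟨⟨by linarith, by linarith⟩, ?_⟩, by ring⟩
    show lam < ‖f (c - (c - t))‖
    rwa [sub_sub_cancel]

/-- extension to everything -/
theorem ext_all (m N : ℕ) (hm : 1 ≤ m) (f : ℤ → E) (ε lam : ℝ) (hl : 0 ≤ lam) (hε : 0 ≤ ε)
    (u v : ℤ) (hu : 0 ≤ u) (w : ℕ) (hw : 1 ≤ w) (hvu : u + 2 * (m : ℤ) * (w : ℤ) ≤ v)
    (hvN : v ≤ N - 1) (s : ℕ) (hs : N ≤ s * w) :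
    (((big f ((2 ^ m + 1) ^ (2 * s) * (lam + ε)) 0 (N - 1)).card : ℕ) : ℝ) ≤
      ((m : ℝ) + 1) ^ (2 * s) * (((big f lam u v).card : ℝ) +
        2 * (s : ℝ) * (((badAP m N f ε).card : ℝ) / ((w : ℝ) + 1))) := by
  obtain ⟨l1, h1, h2, h3⟩ := ext_many m N hm f ε lam hl hε u v hu w hw hvu hvN s
  have hsN : (N : ℤ) ≤ (s : ℤ) * (w : ℤ) := by exact_mod_cast hs
  have hv0 : 0 ≤ v := by
    have : (0 : ℤ) ≤ 2 * (m : ℤ) * (w : ℤ) := by positivity
    linarith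
  have e1 : min (v + (s : ℤ) * (w : ℤ)) ((N : ℤ) - 1) = (N : ℤ) - 1 := by
    refine min_eq_right ?_
    linarith
  rw [e1] at h3
  -- reflect
  set f' : ℤ → E := fun t => f ((N : ℤ) - 1 - t) with hf'
  have hb1 : (big f' l1 0 ((N : ℤ) - 1 - u)).card = (big f l1 u ((N : ℤ) - 1)).card := by
    rw [hf', big_refl, sub_zero, sub_sub_cancel]
  obtain ⟨l2, h4, h5, h6⟩ := ext_many m N hm f' ε l1 (le_trans hl h1) hε 0 ((N : ℤ) - 1 - u)
    (le_refl _) w hw (by linarith) (by linarith) s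
  have huv : u ≤ v := by
    have : (0 : ℤ) ≤ 2 * (m : ℤ) * (w : ℤ) := by positivity
    linarith
  have e2 : min ((N : ℤ) - 1 - u + (s : ℤ) * (w : ℤ)) ((N : ℤ) - 1) = (N : ℤ) - 1 := by
    refine min_eq_right ?_
    linarith
  rw [e2, hb1] at h6
  have hb2 : (big f' l2 0 ((N : ℤ) - 1)).card = (big f l2 0 ((N : ℤ) - 1)).card := by
    rw [hf', big_refl, sub_zero, sub_self]
  rw [hb2] at h6
  have hl2 : l2 ≤ (2 ^ m + 1) ^ (2 * s) * (lam + ε) := by
    have h7 : l2 + ε ≤ (2 ^ m + 1) ^ s * ((2 ^ m + 1) ^ s * (lam + ε)) :=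
      le_trans h5 (mul_le_mul_of_nonneg_left h2 (by positivity))
    have h8 : ((2 : ℝ) ^ m + 1) ^ s * ((2 ^ m + 1) ^ s * (lam + ε)) =
        (2 ^ m + 1) ^ (2 * s) * (lam + ε) := by ring
    rw [h8] at h7
    linarith
  have h9 : (big f ((2 ^ m + 1) ^ (2 * s) * (lam + ε)) 0 ((N : ℤ) - 1)).card ≤
      (big f l2 0 ((N : ℤ) - 1)).card := by
    refine Finset.card_le_card fun t ht => ?_
    obtain ⟨h10, h11⟩ := mem_big.1 ht
    exact mem_big.2 ⟨h10, lt_of_le_of_lt hl2 h11⟩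
  have h10 : (((big f ((2 ^ m + 1) ^ (2 * s) * (lam + ε)) 0 ((N : ℤ) - 1)).card : ℕ) : ℝ) ≤
      ((big f l2 0 ((N : ℤ) - 1)).card : ℝ) := by exact_mod_cast h9
  refine le_trans h10 (le_trans h6 ?_)
  have hW : (0 : ℝ) < (w : ℝ) + 1 := by positivity
  set B : ℝ := ((badAP m N f ε).card : ℝ) with hB
  have hBB : ((badAP m N f' ε).card : ℝ) ≤ B := by
    rw [hB, hf']
    exact_mod_cast badAP_refl m N f ε
  have hb' : ((badAP m N f' ε).card : ℝ) / ((w : ℝ) + 1) ≤ B / ((w : ℝ) + 1) :=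
    div_le_div_of_nonneg_right hBB hW.le
  set b : ℝ := B / ((w : ℝ) + 1) with hbdef
  have hb0 : 0 ≤ b := div_nonneg (Nat.cast_nonneg _) hW.le
  set Q : ℝ := ((big f lam u v).card : ℝ) with hQ
  have hm1 : (1 : ℝ) ≤ ((m : ℝ) + 1) ^ s := one_le_pow₀ (by
    have : (0 : ℝ) ≤ (m : ℝ) := Nat.cast_nonneg _
    linarith)
  have hmp : (0 : ℝ) ≤ ((m : ℝ) + 1) ^ s := by positivity
  have hs0 : (0 : ℝ) ≤ (s : ℝ) := Nat.cast_nonneg _
  have h11 : ((big f l1 u ((N : ℤ) - 1)).card : ℝ) + (s : ℝ) *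
      (((badAP m N f' ε).card : ℝ) / ((w : ℝ) + 1)) ≤
      ((m : ℝ) + 1) ^ s * (Q + 2 * (s : ℝ) * b) := by
    have h12 : (s : ℝ) * (((badAP m N f' ε).card : ℝ) / ((w : ℝ) + 1)) ≤ (s : ℝ) * b :=
      mul_le_mul_of_nonneg_left hb' hs0
    have h13 : (s : ℝ) * b ≤ ((m : ℝ) + 1) ^ s * ((s : ℝ) * b) :=
      le_mul_of_one_le_left (mul_nonneg hs0 hb0) hm1
    have h14 : ((m : ℝ) + 1) ^ s * (Q + 2 * (s : ℝ) * b) =
      ((m : ℝ) + 1) ^ s * (Q + (s : ℝ) * b) + ((m : ℝ) + 1) ^ s * ((s : ℝ) * b) := by ring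
    rw [h14]
    linarith
  refine le_trans (mul_le_mul_of_nonneg_left h11 hmp) (le_of_eq ?_)
  ring

/-- the form used by the assembly -/
theorem extend (m : ℕ) (hm : 1 ≤ m) (D : ℕ) (f p : ℤ → E) (N M : ℕ) (a' : ℤ) (eta c x : ℝ)
    (heta : 0 ≤ eta) (hc : 0 ≤ c) (ha' : 0 ≤ a') (haM : a' + (M : ℤ) < N) (hM : 2 * m ≤ M)
    (hD : N ≤ D * M) (hp : ∀ t h : ℤ, AP m p t h = 0)
    (hx : (((big (fun t => f t - p t) c a' (a' + M)).card : ℕ) : ℝ) ≤ x) :
    (((big (fun t => f t - p t) ((2 ^ m + 1) ^ (8 * m * D) * (c + eta)) 0 (N - 1)).card : ℕ) : ℝ) ≤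
      (((m : ℝ) + 1) ^ (8 * m * D) * (16 * (m : ℝ) ^ 2 * (D : ℝ) + 1)) *
        (x + ((badAP m N f eta).card : ℝ) / (M : ℝ)) := by
  classical
  set w : ℕ := M / (2 * m) with hw
  have h2m : 0 < 2 * m := by omega
  have hw1 : 1 ≤ w := (Nat.one_le_div_iff h2m).2 hM
  have hwM : 2 * m * w ≤ M := Nat.mul_div_le M (2 * m)
  have hMw : M < 2 * m * (w + 1) := by
    have := Nat.lt_mul_div_succ M h2m
    exact this
  have hMw' : M ≤ 4 * m * w := by
    have : 2 * m * (w + 1) ≤ 4 * m * w := by nlinarith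
    omega
  have hbad : badAP m N (fun t => f t - p t) eta = badAP m N f eta := by
    ext y
    rw [mem_badAP, mem_badAP, AP_sub, hp, sub_zero]
  have h1 := ext_all m N hm (fun t => f t - p t) eta c hc heta a' (a' + M) ha' w hw1 (by
    have : ((2 * m * w : ℕ) : ℤ) ≤ (M : ℤ) := by exact_mod_cast hwM
    push_cast at this
    linarith) (by omega) (4 * m * D) (by
    calc N ≤ D * M := hD
      _ ≤ D * (4 * m * w) := Nat.mul_le_mul_left _ hMw'
      _ = 4 * m * D * w := by ring)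
  rw [hbad] at h1
  have e1 : 2 * (4 * m * D) = 8 * m * D := by ring
  rw [e1] at h1
  refine le_trans h1 ?_
  have e2 : (((m : ℝ) + 1) ^ (8 * m * D) * (16 * (m : ℝ) ^ 2 * (D : ℝ) + 1)) *
      (x + ((badAP m N f eta).card : ℝ) / (M : ℝ)) =
      ((m : ℝ) + 1) ^ (8 * m * D) * ((16 * (m : ℝ) ^ 2 * (D : ℝ) + 1) *
        (x + ((badAP m N f eta).card : ℝ) / (M : ℝ))) := mul_assoc _ _ _
  rw [e2]
  refine mul_le_mul_of_nonneg_left ?_ (pow_nonneg (by positivity) _)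
  set B : ℝ := ((badAP m N f eta).card : ℝ) with hB
  have hB0 : 0 ≤ B := Nat.cast_nonneg _
  have hM0 : (0 : ℝ) < (M : ℝ) := by
    have : 0 < M := by omega
    exact_mod_cast this
  have hx0 : 0 ≤ x := le_trans (Nat.cast_nonneg _) hx
  have h2 : B / ((w : ℝ) + 1) ≤ 2 * (m : ℝ) * (B / (M : ℝ)) := by
    have hW : (0 : ℝ) < (w : ℝ) + 1 := by positivity
    rw [div_le_iff₀ hW]
    have h3 : (M : ℝ) ≤ 2 * (m : ℝ) * ((w : ℝ) + 1) := by exact_mod_cast hMw.le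
    have h4 : B * (M : ℝ) ≤ B * (2 * (m : ℝ) * ((w : ℝ) + 1)) := mul_le_mul_of_nonneg_left h3 hB0
    have h5 : 2 * (m : ℝ) * (B / (M : ℝ)) * ((w : ℝ) + 1) =
        (B * (2 * (m : ℝ) * ((w : ℝ) + 1))) / (M : ℝ) := by ring
    rw [h5, le_div_iff₀ hM0]
    exact h4
  have h3 : 2 * ((4 * m * D : ℕ) : ℝ) * (B / ((w : ℝ) + 1)) ≤
      16 * (m : ℝ) ^ 2 * (D : ℝ) * (B / (M : ℝ)) := by
    have h4 : 2 * ((4 * m * D : ℕ) : ℝ) * (B / ((w : ℝ) + 1)) ≤
        2 * ((4 * m * D : ℕ) : ℝ) * (2 * (m : ℝ) * (B / (M : ℝ))) :=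
      mul_le_mul_of_nonneg_left h2 (by positivity)
    refine le_trans h4 (le_of_eq ?_)
    push_cast
    ring
  have hbM : 0 ≤ B / (M : ℝ) := div_nonneg hB0 hM0.le
  have h4 : 0 ≤ 16 * (m : ℝ) ^ 2 * (D : ℝ) * x := by positivity
  calc _ ≤ x + 16 * (m : ℝ) ^ 2 * (D : ℝ) * (B / (M : ℝ)) := add_le_add hx h3
    _ ≤ (16 * (m : ℝ) ^ 2 * (D : ℝ) + 1) * (x + B / (M : ℝ)) := by nlinarith

/-- AP differences of a polynomial of degree less than `m` vanish -/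
theorem AP_poly (m : ℕ) (c : ℕ → E) (t h : ℤ) :
    AP m (fun x : ℤ => ∑ i ∈ range m, ((x : ℝ) ^ i) • c i) t h = 0 := by
  have h1 : ∀ s : Finset ℕ, (∀ i ∈ s, i < m) →
      AP m (fun x : ℤ => ∑ i ∈ s, ((x : ℝ) ^ i) • c i) t h =
        ∑ i ∈ s, AP m (fun x : ℤ => ((x : ℝ) ^ i) • c i) t h := by
    intro s _
    unfold AP
    rw [Finset.sum_comm]
    refine Finset.sum_congr rfl fun j _ => ?_
    rw [Finset.smul_sum]
  rw [h1 (range m) (fun i hi => Finset.mem_range.1 hi)]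
  refine Finset.sum_eq_zero fun i hi => ?_
  have h2 := AP_smul_const m (fun x : ℤ => (x : ℝ) ^ i) (c i) t h
  rw [h2, AP_pow m i (Finset.mem_range.1 hi), zero_smul]

theorem AP_poly_fin (m : ℕ) (c : Fin m → E) (t h : ℤ) :
    AP m (fun x : ℤ => ∑ i : Fin m, ((x : ℝ) ^ (i : ℕ)) • c i) t h = 0 := by
  have h1 := AP_poly (E := E) m (fun i : ℕ => if hi : i < m then c ⟨i, hi⟩ else (0 : E)) t h
  have h2 : (fun x : ℤ => ∑ i ∈ range m, ((x : ℝ) ^ i) •
      (if hi : i < m then c ⟨i, hi⟩ else (0 : E))) =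
      fun x : ℤ => ∑ i : Fin m, ((x : ℝ) ^ (i : ℕ)) • c i := by
    funext x
    rw [Finset.sum_range]
    refine Finset.sum_congr rfl fun i _ => ?_
    rw [dif_pos i.2]
  rwa [h2] at h1

end Pool.APP
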