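import Mathlib
import Pool.Agent.H8.APP.Whit

/-!
# AP => polynomial, part 4: discrete Whitney theorem, the induction
-/

set_option autoImplicit false

namespace Pool.APP

open Finset

variable {E : Type*} [NormedAddCommGroup E] [NormedSpace ℝ E]

theorem AP_pow_smul (m n : ℕ) (hn : n < m) (c : E) (t h : ℤ) :
    AP m (fun x : ℤ => ((x : ℝ) ^ n) • c) t h = 0 := by
  rw [AP_smul_const m (fun x : ℤ => (x : ℝ) ^ n) c t h, AP_pow m n hn t h, zero_smul]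

/-- the multi-difference with steps `i k_i`, `2 <= i <= n + 2` -/
noncomputable def F2 (n : ℕ) (g : ℤ → E) (k : ℕ → ℕ) (t : ℤ) : E :=
  MD (Finset.Icc 2 (n + 2)) g (fun i => (i : ℤ) * (k i : ℤ)) t

/-- near constancy in the base point -/
theorem F2_const (n : ℕ) (g : ℤ → E) (a : ℤ) (M₁ : ℕ) (d : ℝ) (hd : 0 ≤ d)
    (hg : ∀ u h : ℤ, 1 ≤ h → a ≤ u → u + ((n + 2 : ℕ) : ℤ) * h ≤
      a + 6 * ((n + 2 : ℕ) : ℤ) ^ 2 * (M₁ : ℤ) → ‖AP (n + 2) g u h‖ ≤ d)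
    (k : ℕ → ℕ) (hk : ∀ i ∈ Finset.Icc 2 (n + 2), k i ≤ M₁) (t : ℤ)
    (ht : a + 2 * ((n + 2 : ℕ) : ℤ) ^ 2 * (M₁ : ℤ) ≤ t)
    (ht' : t ≤ a + 4 * ((n + 2 : ℕ) : ℤ) ^ 2 * (M₁ : ℤ)) (x : ℕ) (hx : x ≤ (n + 2) * M₁) :
    ‖F2 n g k t - F2 n g k (t + (x : ℤ))‖ ≤ 2 ^ (n + 2) * d := by
  classical
  unfold F2
  have h1 : (1 : ℕ) ∉ Finset.Icc 2 (n + 2) := by
    intro h; have := (Finset.mem_Icc.1 h).1; omega
  rw [MD_shift h1]
  have h2 : insert 1 (Finset.Icc 2 (n + 2)) = Finset.Icc 1 (n + 2) := by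
    ext i
    simp only [Finset.mem_insert, Finset.mem_Icc]
    omega
  rw [h2]
  have h3 : ∀ i ∈ Finset.Icc 1 (n + 2),
      Function.update (fun i : ℕ => (i : ℤ) * (k i : ℤ)) 1 (x : ℤ) i =
        (fun i : ℕ => (i : ℤ) * ((Function.update k 1 x i : ℕ) : ℤ)) i := by
    intro i _
    by_cases hi : i = 1
    · subst hi
      simp
    · simp [Function.update_of_ne hi]
  rw [MD_congr h3]
  have hsum : ∑ i ∈ Finset.Icc 1 (n + 2), ((Function.update k 1 x i : ℕ) : ℤ) ≤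
      2 * ((n + 2 : ℕ) : ℤ) * (M₁ : ℤ) := by
    rw [← h2, Finset.sum_insert h1, Function.update_self]
    have h4 : ∑ i ∈ Finset.Icc 2 (n + 2), ((Function.update k 1 x i : ℕ) : ℤ) ≤
        ∑ _i ∈ Finset.Icc 2 (n + 2), (M₁ : ℤ) := by
      refine Finset.sum_le_sum fun i hi => ?_
      have hi1 : i ≠ 1 := by
        have := (Finset.mem_Icc.1 hi).1; omega
      rw [Function.update_of_ne hi1]
      exact_mod_cast hk i hi
    rw [Finset.sum_const, Nat.card_Icc, nsmul_eq_mul] at h4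
    have h5 : ((n + 2 + 1 - 2 : ℕ) : ℤ) ≤ ((n + 2 : ℕ) : ℤ) := by
      exact_mod_cast (by omega : n + 2 + 1 - 2 ≤ n + 2)
    have h6 : ((n + 2 + 1 - 2 : ℕ) : ℤ) * (M₁ : ℤ) ≤ ((n + 2 : ℕ) : ℤ) * (M₁ : ℤ) :=
      mul_le_mul_of_nonneg_right h5 (Int.natCast_nonneg _)
    have h7 : (x : ℤ) ≤ ((n + 2 : ℕ) : ℤ) * (M₁ : ℤ) := by exact_mod_cast hx
    linarith
  refine djok_norm (n + 2) (by omega) g (Function.update k 1 x) t a
    (a + 6 * ((n + 2 : ℕ) : ℤ) ^ 2 * (M₁ : ℤ)) d hd hg ?_ ?_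
  · have h8 : ((n + 2 : ℕ) : ℤ) * ∑ i ∈ Finset.Icc 1 (n + 2),
        ((Function.update k 1 x i : ℕ) : ℤ) ≤
        ((n + 2 : ℕ) : ℤ) * (2 * ((n + 2 : ℕ) : ℤ) * (M₁ : ℤ)) :=
      mul_le_mul_of_nonneg_left hsum (Int.natCast_nonneg _)
    nlinarith
  · have h8 : ((n + 2 : ℕ) : ℤ) * ∑ i ∈ Finset.Icc 1 (n + 2),
        ((Function.update k 1 x i : ℕ) : ℤ) ≤
        ((n + 2 : ℕ) : ℤ) * (2 * ((n + 2 : ℕ) : ℤ) * (M₁ : ℤ)) :=
      mul_le_mul_of_nonneg_left hsum (Int.natCast_nonneg _)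
    nlinarith

/-- near multilinearity -/
theorem F2_lin (n : ℕ) (g : ℤ → E) (a : ℤ) (M₁ : ℕ) (hM : 1 ≤ M₁) (d : ℝ) (hd : 0 ≤ d)
    (hg : ∀ u h : ℤ, 1 ≤ h → a ≤ u → u + ((n + 2 : ℕ) : ℤ) * h ≤
      a + 6 * ((n + 2 : ℕ) : ℤ) ^ 2 * (M₁ : ℤ) → ‖AP (n + 2) g u h‖ ≤ d)
    (t : ℤ) (ht : t = a + 2 * ((n + 2 : ℕ) : ℤ) ^ 2 * (M₁ : ℤ))
    (k : ℕ → ℕ) (hk : ∀ i ∈ Finset.Icc 2 (n + 2), k i ≤ M₁) :
    ∀ J : Finset ℕ, J ⊆ Finset.Icc 2 (n + 2) →
      ‖F2 n g k t - (∏ i ∈ J, ((k i : ℝ) / (M₁ : ℝ))) •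
        F2 n g (fun i => if i ∈ J then M₁ else k i) t‖ ≤ 3 * (J.card : ℝ) * (2 ^ (n + 2) * d) := by
  classical
  intro J
  induction J using Finset.induction_on with
  | empty => intro _; simp
  | insert j J hj ih =>
    intro hJI
    have hJI' : J ⊆ Finset.Icc 2 (n + 2) := fun x hx => hJI (Finset.mem_insert_of_mem hx)
    have hjI : j ∈ Finset.Icc 2 (n + 2) := hJI (Finset.mem_insert_self j J)
    have hj2 : j ≤ n + 2 := (Finset.mem_Icc.1 hjI).2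
    set k' : ℕ → ℕ := fun i => if i ∈ J then M₁ else k i with hk'
    have hk'le : ∀ i ∈ Finset.Icc 2 (n + 2), k' i ≤ M₁ := by
      intro i hi
      simp only [hk']
      split_ifs
      · exact le_refl _
      · exact hk i hi
    -- the function of one variable
    have hupd : ∀ (x : ℕ) (u : ℤ), F2 n g (Function.update k' j x) u =
        MD (Finset.Icc 2 (n + 2)) g
          (Function.update (fun i => (i : ℤ) * (k' i : ℤ)) j ((j : ℤ) * (x : ℤ))) u := by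
      intro x u
      unfold F2
      refine MD_congr (fun i _ => ?_) u
      by_cases hi : i = j
      · subst hi
        simp
      · simp [Function.update_of_ne hi]
    have hadd : ∀ x y : ℕ, x + y ≤ M₁ → ‖F2 n g (Function.update k' j (x + y)) t -
        F2 n g (Function.update k' j x) t - F2 n g (Function.update k' j y) t‖ ≤
        2 ^ (n + 2) * d := by
      intro x y hxy
      have h1 : F2 n g (Function.update k' j (x + y)) t =
          F2 n g (Function.update k' j x) t +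
            F2 n g (Function.update k' j y) (t + ((j * x : ℕ) : ℤ)) := by
        rw [hupd, hupd, hupd]
        have h2 : (j : ℤ) * ((x + y : ℕ) : ℤ) = (j : ℤ) * (x : ℤ) + (j : ℤ) * (y : ℤ) := by
          push_cast; ring
        rw [h2, MD_add_step hjI]
        push_cast
        rfl
      rw [h1, add_sub_cancel_left, norm_sub_rev]
      refine F2_const n g a M₁ d hd hg _ ?_ t ht.ge ?_ (j * x) ?_
      · intro i hi
        by_cases hij : i = j
        · subst hij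
          rw [Function.update_self]; omega
        · rw [Function.update_of_ne hij]; exact hk'le i hi
      · rw [ht]
        have : (0 : ℤ) ≤ ((n + 2 : ℕ) : ℤ) ^ 2 * (M₁ : ℤ) := by positivity
        linarith
      · exact Nat.mul_le_mul hj2 (by omega)
    have hH := hyers (fun x => F2 n g (Function.update k' j x) t) M₁ hM (2 ^ (n + 2) * d) hadd
      (k j) (hk j hjI)
    have h2 : Function.update k' j (k j) = k' := by
      funext i
      by_cases hi : i = j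
      · subst hi
        rw [Function.update_self]
        simp [hk', hj]
      · rw [Function.update_of_ne hi]
    have h3 : Function.update k' j M₁ = fun i => if i ∈ insert j J then M₁ else k i := by
      funext i
      by_cases hi : i = j
      · subst hi
        simp
      · rw [Function.update_of_ne hi]
        simp [hk', Finset.mem_insert, hi]
    rw [h2, h3] at hH
    have hprod0 : 0 ≤ ∏ i ∈ J, ((k i : ℝ) / (M₁ : ℝ)) :=
      Finset.prod_nonneg fun i _ => by positivity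
    have hprod1 : ∏ i ∈ J, ((k i : ℝ) / (M₁ : ℝ)) ≤ 1 := by
      refine Finset.prod_le_one (fun i _ => by positivity) fun i hi => ?_
      have hM0 : (0 : ℝ) < (M₁ : ℝ) := by exact_mod_cast hM
      rw [div_le_one hM0]
      exact_mod_cast hk i (hJI' hi)
    rw [Finset.prod_insert hj, Finset.card_insert_of_notMem hj]
    have h4 : F2 n g k t - (((k j : ℝ) / (M₁ : ℝ)) * ∏ i ∈ J, ((k i : ℝ) / (M₁ : ℝ))) •
        F2 n g (fun i => if i ∈ insert j J then M₁ else k i) t =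
        (F2 n g k t - (∏ i ∈ J, ((k i : ℝ) / (M₁ : ℝ))) • F2 n g k' t) +
        (∏ i ∈ J, ((k i : ℝ) / (M₁ : ℝ))) • (F2 n g k' t - ((k j : ℝ) / (M₁ : ℝ)) •
          F2 n g (fun i => if i ∈ insert j J then M₁ else k i) t) := by
      rw [smul_sub, smul_smul, mul_comm ((k j : ℝ) / (M₁ : ℝ))]
      abel
    rw [h4]
    refine le_trans (norm_add_le _ _) ?_
    have h5 := ih hJI'
    have h6 : ‖(∏ i ∈ J, ((k i : ℝ) / (M₁ : ℝ))) • (F2 n g k' t - ((k j : ℝ) / (M₁ : ℝ)) •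
        F2 n g (fun i => if i ∈ insert j J then M₁ else k i) t)‖ ≤ 3 * (2 ^ (n + 2) * d) := by
      rw [norm_smul, Real.norm_of_nonneg hprod0]
      calc (∏ i ∈ J, ((k i : ℝ) / (M₁ : ℝ))) * _ ≤ 1 * (3 * (2 ^ (n + 2) * d)) :=
            mul_le_mul hprod1 hH (norm_nonneg _) zero_le_one
        _ = _ := one_mul _
    push_cast
    calc _ ≤ 3 * (J.card : ℝ) * (2 ^ (n + 2) * d) + 3 * (2 ^ (n + 2) * d) := add_le_add h5 h6
      _ = _ := by ring

/-- the step -/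
theorem whit_step (n Kn M : ℕ) (hKn : 1 ≤ Kn) (hM : 1 ≤ M) (g : ℤ → E) (a : ℤ) (d : ℝ)
    (hd : 0 ≤ d)
    (hg : ∀ u h : ℤ, 1 ≤ h → a ≤ u → u + ((n + 2 : ℕ) : ℤ) * h ≤
      a + 6 * ((n + 2 : ℕ) : ℤ) ^ 2 * (((n + 2).factorial * Kn * M : ℕ) : ℤ) →
        ‖AP (n + 2) g u h‖ ≤ d) :
    ∃ γ : E, ∀ t h : ℤ, 1 ≤ h →
      a + 2 * ((n + 2 : ℕ) : ℤ) ^ 2 * (((n + 2).factorial * Kn * M : ℕ) : ℤ) ≤ t →
      t + ((n + 1 : ℕ) : ℤ) * h ≤
        a + 2 * ((n + 2 : ℕ) : ℤ) ^ 2 * (((n + 2).factorial * Kn * M : ℕ) : ℤ) +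
          ((Kn * M : ℕ) : ℤ) →
      ‖AP (n + 1) (fun x => g x - ((x : ℝ) ^ (n + 1)) • γ) t h‖ ≤
        ((3 * (n : ℝ) + 4) * 2 ^ (n + 2) +
          ((n : ℝ) + 1) * ((n + 2).factorial : ℝ) ^ (n + 2)) * d := by
  classical
  set L : ℕ := (n + 2).factorial with hL
  have hL1 : 1 ≤ L := Nat.factorial_pos _
  set M₁ : ℕ := L * Kn * M with hM₁
  have hM₁1 : 1 ≤ M₁ := Nat.mul_pos (Nat.mul_pos hL1 hKn) hM
  set a₁ : ℤ := a + 2 * ((n + 2 : ℕ) : ℤ) ^ 2 * (M₁ : ℤ) with ha₁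
  set I : Finset ℕ := Finset.Icc 2 (n + 2) with hI
  have hIcard : I.card = n + 1 := by rw [hI, Nat.card_Icc]; omega
  set G : E := F2 n g (fun _ => M₁) a₁ with hG
  set κ : ℝ := (-1 : ℝ) ^ (n + 1) * ((n + 1).factorial : ℝ) *
    ∏ i ∈ I, ((i : ℝ) * (M₁ : ℝ)) with hκ
  have hM₁0 : (0 : ℝ) < (M₁ : ℝ) := by exact_mod_cast hM₁1
  have hprod0 : ∏ i ∈ I, ((i : ℝ) * (M₁ : ℝ)) ≠ 0 := by
    refine Finset.prod_ne_zero_iff.2 fun i hi => ?_
    have : 2 ≤ i := (Finset.mem_Icc.1 hi).1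
    have hi0 : (0 : ℝ) < (i : ℝ) := by exact_mod_cast (by omega : 0 < i)
    positivity
  have hκ0 : κ ≠ 0 := by
    refine mul_ne_zero (mul_ne_zero (pow_ne_zero _ (by norm_num)) ?_) hprod0
    exact_mod_cast (Nat.factorial_pos (n + 1)).ne'
  set γ : E := κ⁻¹ • G with hγ
  refine ⟨γ, ?_⟩
  set g₁ : ℤ → E := fun x => g x - ((x : ℝ) ^ (n + 1)) • γ with hg₁
  intro t h hh hta htb
  have hh0 : (0 : ℤ) < h := by omega
  obtain ⟨hn, rfl⟩ : ∃ hn : ℕ, h = (hn : ℤ) := ⟨h.toNat, (Int.toNat_of_nonneg hh0.le).symm⟩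
  have hhn : 1 ≤ hn := by exact_mod_cast hh
  -- sizes
  have hKM : ((Kn * M : ℕ) : ℤ) ≤ (M₁ : ℤ) := by
    have : Kn * M ≤ M₁ := by
      rw [hM₁, Nat.mul_assoc]
      exact Nat.le_mul_of_pos_left _ hL1
    exact_mod_cast this
  have hhKM : hn ≤ Kn * M := by
    have h1 : (hn : ℤ) ≤ ((n + 1 : ℕ) : ℤ) * (hn : ℤ) := by
      have : (1 : ℤ) ≤ ((n + 1 : ℕ) : ℤ) := by exact_mod_cast (by omega : 1 ≤ n + 1)
      nlinarith
    have h2 : (hn : ℤ) ≤ ((Kn * M : ℕ) : ℤ) := by linarith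
    exact_mod_cast h2
  -- the steps
  set k : ℕ → ℕ := fun i => (L / i) * hn with hk
  have hdiv : ∀ i ∈ I, i * (L / i) = L := by
    intro i hi
    have h1 := Finset.mem_Icc.1 hi
    exact Nat.mul_div_cancel' (Nat.dvd_factorial (by omega) h1.2)
  have hkle : ∀ i ∈ I, k i ≤ M₁ := by
    intro i hi
    have h1 : L / i ≤ L := Nat.div_le_self _ _
    calc k i = (L / i) * hn := rfl
      _ ≤ L * (Kn * M) := Nat.mul_le_mul h1 hhKM
      _ = M₁ := by rw [hM₁, Nat.mul_assoc]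
  have hg' : ∀ u h : ℤ, 1 ≤ h → a ≤ u → u + ((n + 2 : ℕ) : ℤ) * h ≤
      a + 6 * ((n + 2 : ℕ) : ℤ) ^ 2 * (M₁ : ℤ) → ‖AP (n + 2) g u h‖ ≤ d := hg
  -- the multi-difference of `g` at `a₁`
  have h1 := F2_lin n g a M₁ hM₁1 d hd hg' a₁ ha₁ k hkle I (subset_refl _)
  have h2 : F2 n g (fun i => if i ∈ I then M₁ else k i) a₁ = G := by
    rw [hG]
    unfold F2
    refine MD_congr (fun i hi => ?_) a₁
    simp only [hI] at *
    rw [if_pos hi]
  rw [h2, hIcard] at h1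
  -- the multi-difference of `g` at `t`
  have htx : a₁ ≤ t := hta
  obtain ⟨x, hx⟩ : ∃ x : ℕ, t = a₁ + (x : ℤ) :=
    ⟨(t - a₁).toNat, by rw [Int.toNat_of_nonneg (by linarith)]; ring⟩
  have hxle : x ≤ M₁ := by
    have h3 : (x : ℤ) ≤ ((Kn * M : ℕ) : ℤ) := by
      have : (0 : ℤ) ≤ ((n + 1 : ℕ) : ℤ) * (hn : ℤ) := by positivity
      linarith
    have h4 : (x : ℤ) ≤ (M₁ : ℤ) := le_trans h3 hKM
    exact_mod_cast h4
  have h3 : ‖F2 n g k a₁ - F2 n g k t‖ ≤ 2 ^ (n + 2) * d := by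
    rw [hx]
    refine F2_const n g a M₁ d hd hg' k hkle a₁ (le_refl _) ?_ x ?_
    · have : (0 : ℤ) ≤ ((n + 2 : ℕ) : ℤ) ^ 2 * (M₁ : ℤ) := by positivity
      rw [ha₁]; linarith
    · calc x ≤ M₁ := hxle
        _ = 1 * M₁ := (one_mul _).symm
        _ ≤ (n + 2) * M₁ := Nat.mul_le_mul_right _ (by omega)
  -- the polynomial part
  have h4 : MD I (fun x : ℤ => ((x : ℝ) ^ (n + 1)) • γ)
      (fun i => (i : ℤ) * (k i : ℤ)) t = (∏ i ∈ I, ((k i : ℝ) / (M₁ : ℝ))) • G := by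
    rw [MD_smul_const I (fun x : ℤ => (x : ℝ) ^ (n + 1)) γ _ t, MD_pow I _ (n + 1) (by omega) t,
      if_pos hIcard.symm, hγ, smul_smul, hIcard]
    congr 1
    rw [hκ]
    push_cast
    rw [Finset.prod_mul_distrib, Finset.prod_mul_distrib, Finset.prod_div_distrib]
    have hp1 : ∏ i ∈ I, (i : ℝ) ≠ 0 := by
      refine Finset.prod_ne_zero_iff.2 fun i hi => ?_
      have : 2 ≤ i := (Finset.mem_Icc.1 hi).1
      exact_mod_cast (by omega : i ≠ 0)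
    have hp2 : ∏ _i ∈ I, (M₁ : ℝ) ≠ 0 := Finset.prod_ne_zero_iff.2 fun i _ => hM₁0.ne'
    have hf : (((n + 1).factorial : ℕ) : ℝ) ≠ 0 := by
      exact_mod_cast (Nat.factorial_pos (n + 1)).ne'
    have hs : ((-1 : ℝ)) ^ (n + 1) ≠ 0 := pow_ne_zero _ (by norm_num)
    field_simp
  have h5 : ‖MD I g₁ (fun i => (i : ℤ) * (k i : ℤ)) t‖ ≤
      (3 * (n : ℝ) + 4) * (2 ^ (n + 2) * d) := by
    have h6 : MD I g₁ (fun i => (i : ℤ) * (k i : ℤ)) t =
        (F2 n g k a₁ - (∏ i ∈ I, ((k i : ℝ) / (M₁ : ℝ))) • G) - (F2 n g k a₁ - F2 n g k t) := by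
      rw [hg₁, MD_sub, h4]
      show F2 n g k t - _ = _
      abel
    rw [h6]
    refine le_trans (norm_sub_le _ _) ?_
    have h7 := add_le_add h1 h3
    refine le_trans h7 (le_of_eq ?_)
    push_cast
    ring
  -- long steps
  have h6 : MD I g₁ (fun i => (i : ℤ) * (k i : ℤ)) t =
      MD I g₁ (fun i => if i ∈ I then (L : ℤ) * (hn : ℤ) else (hn : ℤ)) t := by
    refine MD_congr (fun i hi => ?_) t
    rw [if_pos hi]
    have h7 : i * k i = L * hn := by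
      show i * ((L / i) * hn) = L * hn
      rw [← Nat.mul_assoc, hdiv i hi]
    exact_mod_cast h7
  have hkill : ∀ u : ℤ, AP (n + 2) g₁ u (hn : ℤ) = AP (n + 2) g u (hn : ℤ) := by
    intro u
    rw [hg₁, AP_sub, AP_pow_smul (n + 2) (n + 1) (by omega), sub_zero]
  have h7 := long_short (n + 1) L hL1 g₁ d a (a + 6 * ((n + 2 : ℕ) : ℤ) ^ 2 * (M₁ : ℤ))
    (hn : ℤ) hh (fun u hu hu' => by
      rw [hkill]
      refine hg' u hn hh hu ?_
      refine le_trans (le_of_eq ?_) hu'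
      push_cast; ring) I hIcard hd I (subset_refl _) t (by
        have : (0 : ℤ) ≤ ((n + 2 : ℕ) : ℤ) ^ 2 * (M₁ : ℤ) := by positivity
        linarith) (by
        rw [hIcard]
        have hLh : (L : ℤ) * (hn : ℤ) ≤ (M₁ : ℤ) := by
          have : L * hn ≤ M₁ := by
            rw [hM₁, Nat.mul_assoc]
            exact Nat.mul_le_mul_left _ hhKM
          exact_mod_cast this
        have hhM : (hn : ℤ) ≤ (M₁ : ℤ) := by
          have h8 : (hn : ℤ) ≤ ((Kn * M : ℕ) : ℤ) := by exact_mod_cast hhKM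
          linarith
        have h9 : t ≤ a₁ + (M₁ : ℤ) := by
          rw [hx]
          have : (x : ℤ) ≤ (M₁ : ℤ) := by exact_mod_cast hxle
          linarith
        have h10 : (((n + 1 : ℕ) : ℤ) * (L : ℤ) + ((n + 1 : ℕ) : ℤ) + 1) * (hn : ℤ) ≤
            (2 * ((n + 2 : ℕ) : ℤ)) * (M₁ : ℤ) := by
          have e1 : ((n + 1 : ℕ) : ℤ) * ((L : ℤ) * (hn : ℤ)) ≤ ((n + 1 : ℕ) : ℤ) * (M₁ : ℤ) :=
            mul_le_mul_of_nonneg_left hLh (Int.natCast_nonneg _)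
          have e2 : ((n + 1 : ℕ) : ℤ) * (hn : ℤ) ≤ ((n + 1 : ℕ) : ℤ) * (M₁ : ℤ) :=
            mul_le_mul_of_nonneg_left hhM (Int.natCast_nonneg _)
          push_cast at e1 e2 ⊢
          nlinarith
        have hMpos : (0 : ℤ) ≤ (M₁ : ℤ) := Int.natCast_nonneg _
        have hn2 : (2 : ℤ) ≤ ((n + 2 : ℕ) : ℤ) := by exact_mod_cast (by omega : 2 ≤ n + 2)
        have h11 : (2 * ((n + 2 : ℕ) : ℤ)) * (M₁ : ℤ) + (M₁ : ℤ) ≤
            4 * ((n + 2 : ℕ) : ℤ) ^ 2 * (M₁ : ℤ) := by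
          have e3 : (2 * ((n + 2 : ℕ) : ℤ)) + 1 ≤ 4 * ((n + 2 : ℕ) : ℤ) ^ 2 := by nlinarith
          have e4 := mul_le_mul_of_nonneg_right e3 hMpos
          linarith
        rw [ha₁] at h9
        linarith)
  rw [← h6, hIcard] at h7
  -- conclusion
  set D : E := AP (n + 1) g₁ t (hn : ℤ) with hD
  have hLr : (1 : ℝ) ≤ (L : ℝ) := by exact_mod_cast hL1
  have h8 : (L : ℝ) ^ (n + 1) * ‖D‖ ≤ (3 * (n : ℝ) + 4) * (2 ^ (n + 2) * d) +
      ((n + 1 : ℕ) : ℝ) * (L : ℝ) ^ (n + 1 + 1) * d := by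
    have h9 : ‖((L : ℝ) ^ (n + 1)) • D‖ = (L : ℝ) ^ (n + 1) * ‖D‖ := by
      rw [norm_smul, norm_pow, Real.norm_natCast]
    rw [← h9]
    have h10 : ((L : ℝ) ^ (n + 1)) • D = MD I g₁ (fun i => (i : ℤ) * (k i : ℤ)) t -
        (MD I g₁ (fun i => (i : ℤ) * (k i : ℤ)) t - ((L : ℝ) ^ (n + 1)) • D) := by abel
    rw [h10]
    exact le_trans (norm_sub_le _ _) (add_le_add h5 h7)
  have h9 : ‖D‖ ≤ (L : ℝ) ^ (n + 1) * ‖D‖ :=
    le_mul_of_one_le_left (norm_nonneg _) (one_le_pow₀ hLr)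
  refine le_trans h9 (le_trans h8 (le_of_eq ?_))
  push_cast
  ring

/-- discrete Whitney theorem with explicit constants -/
theorem whit_aux (n : ℕ) : ∀ (M : ℕ) (g : ℤ → E) (a : ℤ) (d : ℝ), 1 ≤ M → 0 ≤ d →
    (∀ t h : ℤ, 1 ≤ h → a ≤ t → t + ((n + 1 : ℕ) : ℤ) * h ≤ a + ((Kw n * M : ℕ) : ℤ) →
      ‖AP (n + 1) g t h‖ ≤ d) →
    ∃ (c : ℕ → E) (a' : ℤ), a ≤ a' ∧ a' + (M : ℤ) ≤ a + ((Kw n * M : ℕ) : ℤ) ∧
      ∀ t : ℤ, a' ≤ t → t ≤ a' + (M : ℤ) →
        ‖g t - ∑ i ∈ range (n + 1), ((t : ℝ) ^ i) • c i‖ ≤ Cw n * d := by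
  classical
  induction n with
  | zero =>
    intro M g a d hM hd hg
    refine ⟨fun _ => g a, a, le_refl _, ?_, ?_⟩
    · simp [Kw]
    · intro t hat htM
      simp only [zero_add, Finset.range_one, Finset.sum_singleton, pow_zero, one_smul, Cw, one_mul]
      rcases hat.eq_or_lt with h | h
      · rw [← h, sub_self, norm_zero]; exact hd
      · have h1 := hg a (t - a) (by omega) (le_refl _) (by
          simp only [Kw, one_mul]
          push_cast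
          linarith)
        have h2 : AP (0 + 1) g a (t - a) = g a - g t := by
          unfold AP
          rw [Finset.sum_range_succ, Finset.sum_range_one]
          simp only [pow_zero, Nat.choose_zero_right, Nat.cast_one, mul_one, one_smul,
            Nat.cast_zero, zero_mul, add_zero, zero_add, pow_one, Nat.choose_self, neg_smul,
            one_mul, add_sub_cancel]
          abel
        rw [h2, norm_sub_rev] at h1
        exact h1
  | succ n ih =>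
    intro M g a d hM hd hg
    set L : ℕ := (n + 2).factorial with hL
    have hKeq : Kw (n + 1) * M = 6 * (n + 2) ^ 2 * ((n + 2).factorial * Kw n * M) := by
      show 6 * (n + 2) ^ 2 * (n + 2).factorial * Kw n * M = _
      ring
    obtain ⟨γ, hγ⟩ := whit_step n (Kw n) M (Kw_pos n) hM g a d hd (by
      intro u h hh hu hub
      refine hg u h hh hu ?_
      rw [hKeq]
      refine le_trans hub (le_of_eq ?_)
      push_cast
      ring)
    set a₁ : ℤ := a + 2 * ((n + 2 : ℕ) : ℤ) ^ 2 * (((n + 2).factorial * Kw n * M : ℕ) : ℤ)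
      with ha₁
    set C₁ : ℝ := (3 * (n : ℝ) + 4) * 2 ^ (n + 2) +
          ((n : ℝ) + 1) * ((n + 2).factorial : ℝ) ^ (n + 2) with hC₁
    have hC₁0 : 0 ≤ C₁ := by positivity
    obtain ⟨c, a', h1, h2, h3⟩ := ih M (fun x => g x - ((x : ℝ) ^ (n + 1)) • γ) a₁ (C₁ * d) hM
      (mul_nonneg hC₁0 hd) (fun t h hh ht htb => hγ t h hh ht htb)
    refine ⟨fun i => if i ≤ n then c i else γ, a', ?_, ?_, ?_⟩
    · have : (0 : ℤ) ≤ 2 * ((n + 2 : ℕ) : ℤ) ^ 2 *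
          (((n + 2).factorial * Kw n * M : ℕ) : ℤ) := by positivity
      linarith
    · rw [hKeq]
      have h4 : ((Kw n * M : ℕ) : ℤ) ≤ (((n + 2).factorial * Kw n * M : ℕ) : ℤ) := by
        have : Kw n * M ≤ (n + 2).factorial * Kw n * M := by
          rw [Nat.mul_assoc]
          exact Nat.le_mul_of_pos_left _ (Nat.factorial_pos _)
        exact_mod_cast this
      have h5 : (1 : ℤ) ≤ ((n + 2 : ℕ) : ℤ) ^ 2 := by
        have : (1 : ℤ) ≤ ((n + 2 : ℕ) : ℤ) := by exact_mod_cast (by omega : 1 ≤ n + 2)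
        nlinarith
      have h6 : (0 : ℤ) ≤ (((n + 2).factorial * Kw n * M : ℕ) : ℤ) := Int.natCast_nonneg _
      have h7 : ((6 * (n + 2) ^ 2 * ((n + 2).factorial * Kw n * M) : ℕ) : ℤ) =
          6 * ((n + 2 : ℕ) : ℤ) ^ 2 * (((n + 2).factorial * Kw n * M : ℕ) : ℤ) := by
        push_cast; ring
      rw [h7]
      have h8 := mul_le_mul_of_nonneg_right h5 h6
      linarith
    · intro t hat htM
      have h4 := h3 t hat htM
      have h5 : ∑ i ∈ range (n + 1 + 1), ((t : ℝ) ^ i) • (if i ≤ n then c i else γ) =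
          ∑ i ∈ range (n + 1), ((t : ℝ) ^ i) • c i + ((t : ℝ) ^ (n + 1)) • γ := by
        rw [Finset.sum_range_succ, if_neg (by omega)]
        congr 1
        refine Finset.sum_congr rfl fun i hi => ?_
        rw [if_pos (by have := Finset.mem_range.1 hi; omega)]
      rw [h5]
      have h6 : g t - (∑ i ∈ range (n + 1), ((t : ℝ) ^ i) • c i + ((t : ℝ) ^ (n + 1)) • γ) =
          (g t - ((t : ℝ) ^ (n + 1)) • γ) - ∑ i ∈ range (n + 1), ((t : ℝ) ^ i) • c i := by abel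
      rw [h6]
      refine le_trans h4 (le_of_eq ?_)
      show Cw n * (C₁ * d) = Cw (n + 1) * d
      show Cw n * (C₁ * d) = Cw n * C₁ * d
      ring

/-- discrete Whitney theorem -/
theorem whit (m : ℕ) (hm : 1 ≤ m) : ∃ (C : ℝ) (K : ℕ), 0 ≤ C ∧ 1 ≤ K ∧
    ∀ (E : Type) [NormedAddCommGroup E] [NormedSpace ℝ E] (g : ℤ → E) (a : ℤ) (M : ℕ) (d : ℝ),
      1 ≤ M → 0 ≤ d →
      (∀ t h : ℤ, a ≤ t → 1 ≤ h → t + (m : ℤ) * h ≤ a + (K : ℤ) * (M : ℤ) →
        ‖∑ j ∈ range (m + 1), ((-1 : ℝ) ^ j * (m.choose j : ℝ)) • g (t + (j : ℤ) * h)‖ ≤ d) →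
      ∃ (p : Fin m → E) (a' : ℤ), a ≤ a' ∧ a' + (M : ℤ) ≤ a + (K : ℤ) * (M : ℤ) ∧
        ∀ t : ℤ, a' ≤ t → t ≤ a' + (M : ℤ) →
          ‖g t - ∑ i : Fin m, ((t : ℝ) ^ (i : ℕ)) • p i‖ ≤ C * d := by
  obtain ⟨n, rfl⟩ : ∃ n, m = n + 1 := ⟨m - 1, by omega⟩
  refine ⟨Cw n, Kw n, Cw_nonneg n, Kw_pos n, ?_⟩
  intro E _ _ g a M d hM hd hg
  obtain ⟨c, a', h1, h2, h3⟩ := whit_aux n M g a d hM hd (fun t h hh ht htb => by
    refine hg t h ht hh ?_
    rw [← Nat.cast_mul]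
    exact htb)
  refine ⟨fun i => c i, a', h1, ?_, ?_⟩
  · rw [← Nat.cast_mul]; exact h2
  · intro t hat htM
    have h4 := h3 t hat htM
    rw [Finset.sum_range] at h4
    exact h4

end Pool.APP
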